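import Pool.Agent.Helper53K9.MK.Prin

/-!
# Induction by bipartite graphs
-/

set_option autoImplicit false

open Set Matroid

namespace Pool.Agent.Helper53K9.MK

variable {T : Type}

/-- `I` (on the left) and `J` (on the right) are independent in the matroid on the vertices of the
bipartite graph. -/
def BInd (M : Matroid T) (R : T → T → Prop) (I J : Set T) : Prop :=
  ∃ f : T → T, InjOn f I ∧ (∀ v ∈ I, R v (f v)) ∧ (∀ v ∈ I, f v ∉ J) ∧ M.Indep (f '' I ∪ J)

theorem bInd_insert {M : Matroid T} {R : T → T → Prop} {I J : Set T} {v : T} (hv : v ∉ I) :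
    BInd M R (insert v I) J ↔ ∃ w, R v w ∧ w ∉ J ∧ BInd M R I (insert w J) := by
  classical
  constructor
  · rintro ⟨f, hf, hR, hJ, hind⟩
    refine ⟨f v, hR v (mem_insert _ _), hJ v (mem_insert _ _), f, hf.mono (subset_insert _ _),
      fun u hu => hR u (Or.inr hu), ?_, ?_⟩
    · intro u hu
      rintro (h | h)
      · have := hf (Or.inr hu) (Or.inl rfl) h
        exact hv (this ▸ hu)
      · exact hJ u (Or.inr hu) h
    · rw [image_insert_eq] at hind
      rw [union_insert, ← insert_union]
      exact hind
  · rintro ⟨w, hw, hwJ, f, hf, hR, hJ, hind⟩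
    have hg : ∀ u ∈ I, Function.update f v w u = f u := by
      intro u hu
      rw [Function.update_of_ne]
      rintro rfl
      exact hv hu
    have hgv : Function.update f v w v = w := Function.update_self _ _ _
    have himg : Function.update f v w '' I = f '' I := image_congr hg
    refine ⟨Function.update f v w, ?_, ?_, ?_, ?_⟩
    · rw [injOn_insert hv]
      refine ⟨?_, ?_⟩
      · intro a ha b hb hab
        rw [hg a ha, hg b hb] at hab
        exact hf ha hb hab
      · rw [himg, hgv]
        rintro ⟨u, hu, h⟩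
        exact hJ u hu (Or.inl h)
    · rintro u (rfl | hu)
      · rw [hgv]; exact hw
      · rw [hg u hu]; exact hR u hu
    · rintro u (rfl | hu)
      · rw [hgv]; exact hwJ
      · rw [hg u hu]
        exact fun h => hJ u hu (Or.inr h)
    · rw [image_insert_eq, himg, hgv, insert_union, ← union_insert]
      exact hind

/-- The matroid on the vertices of the bipartite graph whose left vertices are in `S`. -/
theorem exists_bip (M : Matroid T) [M.Finite] (R : T → T → Prop) (S : Finset T) :
    ∃ N : Matroid (T ⊕ T), N.Finite ∧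
      (∀ I J : Set T, N.Indep (Sum.inl '' I ∪ Sum.inr '' J) ↔ I ⊆ S ∧ BInd M R I J) ∧
      (HasK4 N → HasK4 M) := by
  classical
  induction S using Finset.induction_on with
  | empty =>
    have hinj : InjOn (Sum.inr : T → T ⊕ T) M.E := Sum.inr_injective.injOn
    have hfin : (M.map Sum.inr hinj).Finite := ⟨M.ground_finite.image _⟩
    refine ⟨M.map Sum.inr hinj, hfin, ?_, ?_⟩
    · intro I J
      rw [map_indep_iff]
      constructor
      · rintro ⟨I₀, hI₀, h⟩
        have hI : I = ∅ := by
          rw [Set.eq_empty_iff_forall_notMem]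
          intro a ha
          have : (Sum.inl a : T ⊕ T) ∈ Sum.inr '' I₀ := by
            rw [← h]
            exact Or.inl ⟨a, ha, rfl⟩
          obtain ⟨b, -, hb⟩ := this
          cases hb
        have hJ : J = I₀ := by
          rw [hI, image_empty, empty_union] at h
          exact (image_injective.2 Sum.inr_injective) h
        subst hI
        subst hJ
        exact ⟨by simp, id, by simp, by simp, by simp, by simpa using hI₀⟩
      · rintro ⟨hI, f, -, -, -, hind⟩
        have hI' : I = ∅ := by
          rw [Finset.coe_empty] at hI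
          exact subset_empty_iff.1 hI
        subst hI'
        refine ⟨J, ?_, by simp⟩
        simpa using hind
    · intro h
      refine hasK4_iso (M := M) (N := M.map Sum.inr hinj) ⟨Sum.inr, ?_, ?_⟩ h
      · exact hinj.bijOn_image
      · intro I hI
        rw [map_indep_iff]
        constructor
        · intro h
          exact ⟨I, h, rfl⟩
        · rintro ⟨I₀, hI₀, h⟩
          rwa [(image_injective.2 Sum.inr_injective) h]
  | insert v S hv ih =>
    obtain ⟨N, hfin, hN, hK⟩ := ih
    have hF : (Sum.inl v : T ⊕ T) ∉ (Sum.inr '' {w | R v w} : Set (T ⊕ T)) := by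
      rintro ⟨w, -, h⟩
      cases h
    refine ⟨prinExt N (Sum.inr '' {w | R v w}) (Sum.inl v) hF,
      prinExt_finite N _ _ hF, ?_, fun h => hK (hasK4_prinExt N _ _ hF h)⟩
    intro I J
    rw [prinExt_indep]
    by_cases hvI : v ∈ I
    · obtain ⟨I', hvI', rfl⟩ := exists_eq_insert hvI
      have e1 : (Sum.inl '' (insert v I') ∪ Sum.inr '' J : Set (T ⊕ T)) =
          insert (Sum.inl v) (Sum.inl '' I' ∪ Sum.inr '' J) := by
        rw [image_insert_eq, insert_union]
      have e2 : (Sum.inl v : T ⊕ T) ∉ (Sum.inl '' I' ∪ Sum.inr '' J : Set (T ⊕ T)) := by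
        rintro (⟨a, ha, h⟩ | ⟨a, -, h⟩)
        · exact hvI' (Sum.inl_injective h ▸ ha)
        · cases h
      rw [e1, pInd_insert hF e2, bInd_insert hvI']
      constructor
      · rintro ⟨_, ⟨w, hw, rfl⟩, hwJ, hind⟩
        have e3 : insert (Sum.inr w) (Sum.inl '' I' ∪ Sum.inr '' J : Set (T ⊕ T)) =
            Sum.inl '' I' ∪ Sum.inr '' (insert w J) := by
          rw [image_insert_eq, union_insert]
        rw [e3, hN] at hind
        refine ⟨?_, w, hw, fun h => hwJ (Or.inr ⟨w, h, rfl⟩), hind.2⟩
        rw [Finset.coe_insert]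
        exact insert_subset_insert hind.1
      · rintro ⟨hS, w, hw, hwJ, hind⟩
        refine ⟨Sum.inr w, ⟨w, hw, rfl⟩, ?_, ?_⟩
        · rintro (⟨a, -, h⟩ | ⟨a, ha, h⟩)
          · cases h
          · exact hwJ (Sum.inr_injective h ▸ ha)
        · have e3 : insert (Sum.inr w) (Sum.inl '' I' ∪ Sum.inr '' J : Set (T ⊕ T)) =
              Sum.inl '' I' ∪ Sum.inr '' (insert w J) := by
            rw [image_insert_eq, union_insert]
          rw [e3, hN]
          refine ⟨?_, hind⟩
          intro a ha
          have h1 : a ∈ ((insert v S : Finset T) : Set T) := hS (Or.inr ha)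
          rw [Finset.coe_insert] at h1
          rcases h1 with h1 | h1
          · exact absurd (h1 ▸ ha) hvI'
          · exact h1
    · have e2 : (Sum.inl v : T ⊕ T) ∉ (Sum.inl '' I ∪ Sum.inr '' J : Set (T ⊕ T)) := by
        rintro (⟨a, ha, h⟩ | ⟨a, -, h⟩)
        · exact hvI (Sum.inl_injective h ▸ ha)
        · cases h
      rw [pInd_of_notMem e2, hN]
      constructor
      · rintro ⟨h1, h2⟩
        refine ⟨?_, h2⟩
        rw [Finset.coe_insert]
        exact h1.trans (subset_insert _ _)
      · rintro ⟨h1, h2⟩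
        refine ⟨?_, h2⟩
        intro a ha
        have h3 := h1 ha
        rw [Finset.coe_insert] at h3
        rcases h3 with h3 | h3
        · exact absurd (h3 ▸ ha) hvI
        · exact h3

/-- The matroid induced by a bipartite graph. -/
theorem exists_bip' [Finite T] (M : Matroid T) (R : T → T → Prop) :
    ∃ N : Matroid T, N.E = univ ∧
      (∀ I : Set T, N.Indep I ↔ ∃ f : T → T, InjOn f I ∧ (∀ v ∈ I, R v (f v)) ∧
        M.Indep (f '' I)) ∧
      (HasK4 N → HasK4 M) := by
  classical
  have := Fintype.ofFinite T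
  obtain ⟨N, hfin, hN, hK⟩ := exists_bip M R Finset.univ
  have hind : ∀ I : Set T, (N.comap (Sum.inl : T → T ⊕ T)).Indep I ↔
      ∃ f : T → T, InjOn f I ∧ (∀ v ∈ I, R v (f v)) ∧ M.Indep (f '' I) := by
    intro I
    rw [comap_indep_iff, and_iff_left Sum.inl_injective.injOn]
    have h1 := hN I ∅
    rw [image_empty, union_empty] at h1
    rw [h1]
    constructor
    · rintro ⟨-, f, h2, h3, -, h4⟩
      exact ⟨f, h2, h3, by simpa using h4⟩
    · rintro ⟨f, h2, h3, h4⟩
      exact ⟨by simp, f, h2, h3, by simp, by simpa using h4⟩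
  refine ⟨N.comap Sum.inl ↾ univ, rfl, ?_, ?_⟩
  · intro I
    rw [restrict_indep_iff, and_iff_left (subset_univ I), hind]
  · intro h
    have h1 := hasK4_restrict univ h
    apply hK
    obtain ⟨C, x, hx⟩ := h1
    have hr : ∀ A : Set T, rk (N.comap (Sum.inl : T → T ⊕ T)) A = rk N (Sum.inl '' A) := fun A =>
      rk_eq_of_eRk (eRk_comap N A)
    refine ⟨Sum.inl '' C, Sum.inl ∘ x, fun S => ?_⟩
    have h2 := hx S
    rw [hr, hr, image_union, ← image_comp] at h2
    exact h2

end Pool.Agent.Helper53K9.MK
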