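import Mathlib

/-!
# Complete classes of matroids

Definitions for the problem MP_c5be19_co.
-/

set_option autoImplicit false

namespace Pool.Agent.Helper53K9.MK

/-- `M` is isomorphic to the cycle matroid `M(K₄)`: its elements correspond to the edges of the
complete graph on four vertices, and a set is independent if and only if the corresponding edges
form a forest. -/
def IsMK4 {α : Type} (M : Matroid α) : Prop :=
  ∃ φ : α → Sym2 (Fin 4), Set.BijOn φ M.E {e | ¬ e.IsDiag} ∧
    ∀ I ⊆ M.E, M.Indep I ↔ (SimpleGraph.fromEdgeSet (φ '' I)).IsAcyclic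

/-- The matroids `M` and `N` are isomorphic. -/
def Iso {α β : Type} (M : Matroid α) (N : Matroid β) : Prop :=
  ∃ f : α → β, Set.BijOn f M.E N.E ∧ ∀ I ⊆ M.E, M.Indep I ↔ N.Indep (f '' I)

/-- `N` is a truncation of `M`: for some `k`, the independent sets of `N` are the independent sets
of `M` with at most `k` elements. -/
def IsTruncation {α : Type} (M N : Matroid α) : Prop :=
  N.E = M.E ∧ ∃ k : ℕ, ∀ I, N.Indep I ↔ M.Indep I ∧ I.encard ≤ k

/-- `p` is (the list of the vertices of) a directed path from `a` to `b` in the directed graph with
the arcs `Γ`. The length may be zero. -/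
def IsPath {T : Type} (Γ : T → T → Prop) (p : List T) (a b : T) : Prop :=
  p.head? = some a ∧ p.getLast? = some b ∧ p.Nodup ∧ p.IsChain Γ

/-- The set `I` can be joined onto the set `J` by pairwise vertex-disjoint directed paths: for each
`a ∈ I` there is a directed path `P a` from `a` to `σ a`, the paths have no common vertices, and `σ`
is a bijection from `I` to `J`. -/
def Linked {T : Type} (Γ : T → T → Prop) (I J : Set T) : Prop :=
  ∃ (σ : T → T) (P : T → List T), Set.BijOn σ I J ∧ (∀ a ∈ I, IsPath Γ (P a) a (σ a)) ∧
    ∀ a ∈ I, ∀ b ∈ I, a ≠ b → (P a).Disjoint (P b)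

/-- `N` is the matroid on `A` that is induced from the matroid `M₀` on a subset of `T` by the directed
graph `Γ` with vertex set `T`: its independent sets are the subsets of `A` that can be joined by
pairwise vertex-disjoint directed paths onto independent sets of `M₀`. -/
def IsInduced {T : Type} (Γ : T → T → Prop) (M₀ : Matroid T) (A : Set T) (N : Matroid T) : Prop :=
  N.E = A ∧ ∀ I, N.Indep I ↔ I ⊆ A ∧ ∃ J, M₀.Indep J ∧ Linked Γ I J

/-- A property of matroids. (A class of matroids is such a property which is invariant under
isomorphism.) -/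
abbrev MatroidClass := ∀ α : Type, Matroid α → Prop

/-- A complete class of (finite) matroids: a class which is closed under restriction, contraction,
duality, direct sum, truncation and induction. -/
structure IsComplete (C : MatroidClass) : Prop where
  finite : ∀ (α : Type) (M : Matroid α), C α M → M.Finite
  iso : ∀ (α β : Type) (M : Matroid α) (N : Matroid β), C α M → Iso M N → C β N
  restrict : ∀ (α : Type) (M : Matroid α) (R : Set α), C α M → R ⊆ M.E → C α (M.restrict R)
  contract : ∀ (α : Type) (M : Matroid α) (X : Set α), C α M → X ⊆ M.E → C α (M.contract X)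
  dual : ∀ (α : Type) (M : Matroid α), C α M → C α M.dual
  sum : ∀ (α β : Type) (M : Matroid α) (N : Matroid β), C α M → C β N → C (α ⊕ β) (M.sum N)
  truncation : ∀ (α : Type) (M N : Matroid α), C α M → IsTruncation M N → C α N
  induction : ∀ (T : Type) [Finite T] (Γ : T → T → Prop) (M₀ : Matroid T) (A : Set T)
    (N : Matroid T), C T M₀ → IsInduced Γ M₀ A N → C T N

/-- `D` is the largest complete class that contains no matroid with the property `P`. -/
def IsLargestCompleteAvoiding (P : MatroidClass) (D : MatroidClass) : Prop :=
  IsComplete D ∧ (∀ (α : Type) (M : Matroid α), D α M → ¬ P α M) ∧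
    ∀ C : MatroidClass, IsComplete C → (∀ (α : Type) (M : Matroid α), C α M → ¬ P α M) →
      ∀ (α : Type) (M : Matroid α), C α M → D α M

/-- The class `𝒦` of the finite matroids that have no minor isomorphic to `M(K₄)`. -/
def NoK4Minor : MatroidClass := fun _ M =>
  M.Finite ∧ ∀ N, N.IsMinor M → ¬ IsMK4 N

end Pool.Agent.Helper53K9.MK
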