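import Pool.Agent.Helper53K9.MK.Rank

/-!
# Forests in the complete graph on four vertices
-/

set_option autoImplicit false

open Set SimpleGraph

namespace Pool.Agent.Helper53K9.MK

/-- The edges of `K₄`. -/
def psi : Fin 6 → Sym2 (Fin 4) := ![s(2, 3), s(1, 3), s(1, 2), s(0, 3), s(0, 2), s(0, 1)]

theorem psi_injective : Function.Injective psi := by decide

theorem psi_notDiag : ∀ i, ¬ (psi i).IsDiag := by decide

theorem psi_surj : ∀ e : Sym2 (Fin 4), ¬ e.IsDiag → ∃ i, psi i = e := by decide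

/-- the graph with the edges in `S` -/
def gr (S : Finset (Fin 6)) : SimpleGraph (Fin 4) := fromEdgeSet (psi '' (S : Set (Fin 6)))

theorem gr_adj (S : Finset (Fin 6)) (u v : Fin 4) :
    (gr S).Adj u v ↔ ∃ i ∈ S, psi i = s(u, v) := by
  unfold gr
  rw [fromEdgeSet_adj]
  constructor
  · rintro ⟨⟨i, hi, h⟩, -⟩
    exact ⟨i, by exact_mod_cast hi, h⟩
  · rintro ⟨i, hi, h⟩
    refine ⟨⟨i, by exact_mod_cast hi, h⟩, ?_⟩
    rintro rfl
    have := psi_notDiag i
    rw [h] at this
    simp at this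

theorem circ_aux : ∀ S : Finset (Fin 6), k4 S ≠ S.card →
    {0, 1, 2} ⊆ S ∨ {0, 3, 4} ⊆ S ∨ {1, 3, 5} ⊆ S ∨ {2, 4, 5} ⊆ S ∨
    {1, 2, 3, 4} ⊆ S ∨ {0, 2, 3, 5} ⊆ S ∨ {0, 1, 4, 5} ⊆ S := by
  decide +kernel

theorem not_acyclic_of_copy {S D : Finset (Fin 6)} (hD : D ⊆ S) (n : ℕ) (hn : 3 ≤ n)
    (f : Fin n → Fin 4) (hf : Function.Injective f)
    (h : ∀ i j, (cycleGraph n).Adj i j → ∃ k ∈ D, psi k = s(f i, f j)) : ¬ (gr S).IsAcyclic := by
  intro hac
  rw [isAcyclic_iff_free_cycleGraph] at hac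
  refine hac n hn ⟨⟨⟨f, ?_⟩, hf⟩⟩
  intro i j hij
  rw [gr_adj]
  obtain ⟨k, hk, hk'⟩ := h i j hij
  exact ⟨k, hD hk, hk'⟩

theorem not_acyclic {S : Finset (Fin 6)} (h : k4 S ≠ S.card) : ¬ (gr S).IsAcyclic := by
  rcases circ_aux S h with h | h | h | h | h | h | h
  · exact not_acyclic_of_copy h 3 le_rfl ![1, 2, 3] (by decide) (by decide)
  · exact not_acyclic_of_copy h 3 le_rfl ![0, 2, 3] (by decide) (by decide)
  · exact not_acyclic_of_copy h 3 le_rfl ![0, 1, 3] (by decide) (by decide)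
  · exact not_acyclic_of_copy h 3 le_rfl ![0, 1, 2] (by decide) (by decide)
  · exact not_acyclic_of_copy h 4 (by norm_num) ![1, 3, 0, 2] (by decide) (by decide)
  · exact not_acyclic_of_copy h 4 (by norm_num) ![0, 3, 2, 1] (by decide) (by decide)
  · exact not_acyclic_of_copy h 4 (by norm_num) ![0, 2, 3, 1] (by decide) (by decide)

theorem tri_aux : ∀ a b c : Fin 4, a ≠ b → b ≠ c → c ≠ a → ∀ i j k : Fin 6, psi i = s(a, b) →
    psi j = s(b, c) → psi k = s(c, a) → ({i, j, k} : Finset (Fin 6)) = {0, 1, 2} ∨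
    ({i, j, k} : Finset (Fin 6)) = {0, 3, 4} ∨ ({i, j, k} : Finset (Fin 6)) = {1, 3, 5} ∨
    ({i, j, k} : Finset (Fin 6)) = {2, 4, 5} := by
  decide +kernel

theorem k4_le (S : Finset (Fin 6)) : k4 S ≤ 3 := by
  unfold k4
  split_ifs
  · norm_num
  · exact min_le_right _ _

theorem acyclic {S : Finset (Fin 6)} (h : k4 S = S.card) : (gr S).IsAcyclic := by
  rw [isAcyclic_iff_free_cycleGraph]
  rintro n hn ⟨f⟩
  have hinj := f.injective'
  have hadj : ∀ i j, (cycleGraph n).Adj i j → ∃ k ∈ S, psi k = s(f i, f j) := by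
    intro i j hij
    have := f.toHom.map_adj hij
    rw [gr_adj] at this
    exact this
  have hn4 : n ≤ 4 := by
    have := Fintype.card_le_of_injective _ hinj
    simpa using this
  have hS := k4_le S
  obtain rfl | rfl : n = 3 ∨ n = 4 := by omega
  · obtain ⟨i, hi, hi'⟩ := hadj 0 1 (by decide)
    obtain ⟨j, hj, hj'⟩ := hadj 1 2 (by decide)
    obtain ⟨k, hk, hk'⟩ := hadj 2 0 (by decide)
    have h1 := tri_aux (f 0) (f 1) (f 2) (fun e => absurd (hinj e) (by decide))
      (fun e => absurd (hinj e) (by decide)) (fun e => absurd (hinj e) (by decide))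
      i j k hi' hj' hk'
    have h2 : ({i, j, k} : Finset (Fin 6)) ⊆ S := by
      intro l hl
      simp only [Finset.mem_insert, Finset.mem_singleton] at hl
      rcases hl with rfl | rfl | rfl
      · exact hi
      · exact hj
      · exact hk
    have h3 : ({i, j, k} : Finset (Fin 6)).card = 3 := by
      rcases h1 with h1 | h1 | h1 | h1 <;> rw [h1] <;> rfl
    have h4 : ({i, j, k} : Finset (Fin 6)) = S := Finset.eq_of_subset_of_card_le h2 (by omega)
    rw [h4] at h1
    have h5 : k4 S = 2 := if_pos h1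
    rw [h4] at h3
    omega
  · obtain ⟨i, hi, hi'⟩ := hadj 0 1 (by decide)
    obtain ⟨j, hj, hj'⟩ := hadj 1 2 (by decide)
    obtain ⟨k, hk, hk'⟩ := hadj 2 3 (by decide)
    obtain ⟨l, hl, hl'⟩ := hadj 3 0 (by decide)
    have n01 : f 0 ≠ f 1 := fun e => absurd (hinj e) (by decide)
    have n02 : f 0 ≠ f 2 := fun e => absurd (hinj e) (by decide)
    have n03 : f 0 ≠ f 3 := fun e => absurd (hinj e) (by decide)
    have n12 : f 1 ≠ f 2 := fun e => absurd (hinj e) (by decide)
    have n13 : f 1 ≠ f 3 := fun e => absurd (hinj e) (by decide)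
    have n23 : f 2 ≠ f 3 := fun e => absurd (hinj e) (by decide)
    have e1 : i ≠ j := by
      rintro rfl
      rw [hi', Sym2.eq_iff] at hj'
      rcases hj' with ⟨h, -⟩ | ⟨h, -⟩
      · exact n01 h
      · exact n02 h
    have e2 : i ≠ k := by
      rintro rfl
      rw [hi', Sym2.eq_iff] at hk'
      rcases hk' with ⟨h, -⟩ | ⟨h, -⟩
      · exact n02 h
      · exact n03 h
    have e3 : i ≠ l := by
      rintro rfl
      rw [hi', Sym2.eq_iff] at hl'
      rcases hl' with ⟨h, -⟩ | ⟨-, h⟩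
      · exact n03 h
      · exact n13 h
    have e4 : j ≠ k := by
      rintro rfl
      rw [hj', Sym2.eq_iff] at hk'
      rcases hk' with ⟨h, -⟩ | ⟨h, -⟩
      · exact n12 h
      · exact n13 h
    have e5 : j ≠ l := by
      rintro rfl
      rw [hj', Sym2.eq_iff] at hl'
      rcases hl' with ⟨h, -⟩ | ⟨h, -⟩
      · exact n13 h
      · exact n01 h.symm
    have e6 : k ≠ l := by
      rintro rfl
      rw [hk', Sym2.eq_iff] at hl'
      rcases hl' with ⟨h, -⟩ | ⟨h, -⟩
      · exact n23 h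
      · exact n02 h.symm
    have h1 : ({i, j, k, l} : Finset (Fin 6)).card = 4 := by
      rw [Finset.card_insert_of_notMem, Finset.card_insert_of_notMem, Finset.card_pair e6]
      · simp [e4, e5]
      · simp [e1, e2, e3]
    have h2 : ({i, j, k, l} : Finset (Fin 6)) ⊆ S := by
      intro m hm
      simp only [Finset.mem_insert, Finset.mem_singleton] at hm
      rcases hm with rfl | rfl | rfl | rfl
      · exact hi
      · exact hj
      · exact hk
      · exact hl
    have h3 := Finset.card_le_card h2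
    omega

theorem acyclic_iff (S : Finset (Fin 6)) :
    (fromEdgeSet (psi '' (S : Set (Fin 6)))).IsAcyclic ↔ k4 S = S.card :=
  ⟨fun h => by_contra fun hne => not_acyclic hne h, acyclic⟩

end Pool.Agent.Helper53K9.MK
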