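import Pool.Agent.Helper53K9.MK.Ext
import Pool.Agent.Helper53K9.MK.K4
import Pool.Agent.Helper53K9.MK.Defs

/-!
# Minors isomorphic to `M(K₄)` and rank functions
-/

set_option autoImplicit false

open Set Matroid

namespace Pool.Agent.Helper53K9.MK

variable {α : Type}

/-- The rank of a set, as a natural number. -/
noncomputable def rk (M : Matroid α) (A : Set α) : ℕ := (M.eRk A).toNat

theorem coe_rk (M : Matroid α) [M.RankFinite] (A : Set α) : (rk M A : ℕ∞) = M.eRk A :=
  ENat.natCast_toNat (eRk_ne_top_iff.2 (M.isRkFinite_set A))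

theorem rankFn_rk (M : Matroid α) [M.RankFinite] : RankFn (rk M) := by
  refine ⟨fun A B h => ?_, fun A B => ?_, fun a A => ?_⟩
  · have := M.eRk_mono h
    rw [← coe_rk, ← coe_rk] at this
    exact_mod_cast this
  · have := M.eRk_inter_add_eRk_union_le A B
    rw [← coe_rk, ← coe_rk, ← coe_rk, ← coe_rk, add_comm] at this
    exact_mod_cast this
  · have := M.eRk_insert_le_add_one a A
    rw [← coe_rk, ← coe_rk] at this
    exact_mod_cast this

theorem rk_exists (M : Matroid α) [M.RankFinite] (A F : Set α) (h : rk M A < rk M (A ∪ F)) :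
    ∃ f ∈ F, rk M (insert f A) = rk M A + 1 := by
  have h1 : M.eRk A < M.eRk (A ∪ F) := by
    rw [← coe_rk, ← coe_rk]
    exact_mod_cast h
  obtain ⟨f, hf, hf1⟩ := exists_eRk_insert_eq_add_one_of_lt h1
  refine ⟨f, ?_, ?_⟩
  · rcases hf.1 with h2 | h2
    · exact absurd h2 hf.2
    · exact h2
  · rw [← coe_rk, ← coe_rk] at hf1
    exact_mod_cast hf1

theorem rk_of_indep {M : Matroid α} [M.RankFinite] {I : Set α} (h : M.Indep I) :
    rk M I = I.ncard := by
  have h1 := h.eRk_eq_encard
  rw [← coe_rk, ← h.finite.cast_ncard_eq] at h1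
  exact_mod_cast h1

theorem indep_of_rk {M : Matroid α} [M.RankFinite] {I : Set α} (hI : I.Finite)
    (h : rk M I = I.ncard) : M.Indep I := by
  rw [indep_iff_eRk_eq_encard_of_finite hI, ← coe_rk, ← hI.cast_ncard_eq, h]

/-- `M` has a configuration of type `M(K₄)`. -/
def HasK4 (M : Matroid α) : Prop := ∃ (C : Set α) (x : Fin 6 → α), Config (rk M) C x

theorem k4_mono_card : ∀ S : Finset (Fin 6), k4 S ≤ S.card := by
  intro S
  unfold k4
  split_ifs with h
  · rcases h with rfl | rfl | rfl | rfl <;> decide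
  · exact min_le_left _ _

theorem k4_nl_iff : ∀ T : Finset (Fin 6), NL T → k4 T = T.card := by
  intro T hT
  rw [k4_nl hT, hT.1]

/-- The rank over a contracted set, for a basis `I` of the contracted set. -/
theorem rk_union_basis {M : Matroid α} [M.RankFinite] {I C : Set α} (hI : M.IsBasis' I C)
    (A : Set α) : rk M (C ∪ A) = rk M (A ∪ I) := by
  have := hI.eRk_eq_eRk_union A
  rw [← coe_rk, ← coe_rk] at this
  rw [union_comm A I]
  exact_mod_cast this.symm

theorem rk_basis {M : Matroid α} [M.RankFinite] {I C : Set α} (hI : M.IsBasis' I C) :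
    rk M C = I.ncard := by
  rw [← rk_of_indep hI.indep]
  have := hI.eRk_eq_eRk
  rw [← coe_rk, ← coe_rk] at this
  exact_mod_cast this.symm

/-- A minor that is isomorphic to `M(K₄)` gives a configuration. -/
theorem hasK4_of_minor {M N : Matroid α} [M.Finite] (hN : N.IsMinor M) (hK : IsMK4 N) :
    HasK4 M := by
  obtain ⟨C, D, hND⟩ := hN
  obtain ⟨φ, hφ, hind⟩ := hK
  have hx : ∀ i : Fin 6, ∃ a ∈ N.E, φ a = psi i := fun i => hφ.surjOn (psi_notDiag i)
  choose x hxE hxφ using hx
  have himg : ∀ S : Finset (Fin 6), φ '' (x '' S) = psi '' S := by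
    intro S
    rw [← image_comp]
    exact image_congr fun i _ => hxφ i
  have hxinj : Function.Injective x := by
    intro i j hij
    apply psi_injective
    rw [← hxφ, ← hxφ, hij]
  have hsub : ∀ S : Finset (Fin 6), x '' S ⊆ N.E := by
    rintro S _ ⟨i, -, rfl⟩
    exact hxE i
  have hNind : ∀ S : Finset (Fin 6), N.Indep (x '' S) ↔ k4 S = S.card := by
    intro S
    rw [hind _ (hsub S), himg S, acyclic_iff]
  obtain ⟨I, hI⟩ := M.exists_isBasis' C
  have hNE : N.E = (M.E \ C) \ D := by rw [hND]; rfl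
  have hdisj : ∀ S : Finset (Fin 6), Disjoint C (x '' S) ∧ Disjoint (x '' S) D := by
    intro S
    constructor
    · rw [Set.disjoint_left]
      rintro a haC haS
      have := hsub S haS
      rw [hNE] at this
      exact this.1.2 haC
    · rw [Set.disjoint_left]
      rintro a haS haD
      have := hsub S haS
      rw [hNE] at this
      exact this.2 haD
  have hMind : ∀ S : Finset (Fin 6), M.Indep (x '' S ∪ I) ↔ k4 S = S.card := by
    intro S
    rw [← hNind S, hND, delete_indep_iff, hI.contract_indep_iff]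
    exact ⟨fun h => ⟨⟨h, (hdisj S).1⟩, (hdisj S).2⟩, fun h => h.1.1⟩
  have hfin : ∀ S : Finset (Fin 6), (x '' (S : Set (Fin 6)) ∪ I).Finite := fun S =>
    (S.finite_toSet.image x).union hI.indep.finite
  have hcard : ∀ S : Finset (Fin 6), (x '' (S : Set (Fin 6)) ∪ I).ncard = S.card + I.ncard := by
    intro S
    rw [ncard_union_eq _ (S.finite_toSet.image x) hI.indep.finite, ncard_image_of_injective _ hxinj,
      ncard_coe_finset]
    exact ((hdisj S).1.mono_left hI.subset).symm
  have hC := rk_basis hI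
  have key : ∀ S : Finset (Fin 6), k4 S ≠ S.card → rk M (C ∪ x '' S) < rk M C + S.card := by
    intro S hS
    rw [rk_union_basis hI, hC]
    have h1 : rk M (x '' S ∪ I) ≠ (x '' (S : Set (Fin 6)) ∪ I).ncard := fun h =>
      hS ((hMind S).1 (indep_of_rk (hfin S) h))
    have h2 := M.eRk_le_encard (x '' (S : Set (Fin 6)) ∪ I)
    rw [← coe_rk, ← (hfin S).cast_ncard_eq] at h2
    have h3 : rk M (x '' S ∪ I) ≤ (x '' (S : Set (Fin 6)) ∪ I).ncard := by exact_mod_cast h2
    have h4 := hcard S
    omega
  refine ⟨C, x, config_of (rankFn_rk M) ?_ ?_ ?_ ?_ ?_⟩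
  · have := key {0, 1, 2} (by decide)
    have h : ({0, 1, 2} : Finset (Fin 6)).card = 3 := rfl
    omega
  · have := key {0, 3, 4} (by decide)
    have h : ({0, 3, 4} : Finset (Fin 6)).card = 3 := rfl
    omega
  · have := key {1, 3, 5} (by decide)
    have h : ({1, 3, 5} : Finset (Fin 6)).card = 3 := rfl
    omega
  · have := key {2, 4, 5} (by decide)
    have h : ({2, 4, 5} : Finset (Fin 6)).card = 3 := rfl
    omega
  · intro T hT
    rw [rk_union_basis hI, rk_of_indep ((hMind T).2 (k4_nl_iff T hT)), hcard T, hT.1, hC]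
    omega

/-- A configuration gives a minor that is isomorphic to `M(K₄)`. -/
theorem minor_of_hasK4 {M : Matroid α} [M.Finite] (h : HasK4 M) :
    ∃ N : Matroid α, N.IsMinor M ∧ IsMK4 N := by
  classical
  obtain ⟨C, x, hx⟩ := h
  have hpt : ∀ p : Fin 6, rk M (insert (x p) C) = rk M C + 1 := by
    intro p
    have := hx {p}
    rw [Finset.coe_singleton, image_singleton, union_singleton] at this
    rw [this]
    have e : ∀ p : Fin 6, k4 {p} = 1 := by decide
    rw [e p]
  have hxC : ∀ p : Fin 6, x p ∉ C := by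
    intro p hp
    have := hpt p
    rw [insert_eq_of_mem hp] at this
    omega
  have hxE : ∀ p : Fin 6, x p ∈ M.E := by
    intro p
    by_contra hp
    have h1 := eRk_insert_of_notMem_ground (M := M) C hp
    rw [← coe_rk, ← coe_rk] at h1
    have h2 : rk M (insert (x p) C) = rk M C := by exact_mod_cast h1
    have := hpt p
    omega
  have hxinj : Function.Injective x := by
    intro i j hij
    by_contra hne
    have h1 := hx {i, j}
    have h2 := hx {i}
    have h3 : x '' (({i, j} : Finset (Fin 6)) : Set (Fin 6)) =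
        x '' (({i} : Finset (Fin 6)) : Set (Fin 6)) := by
      rw [Finset.coe_insert, image_insert_eq, Finset.coe_singleton, image_singleton,
        Finset.coe_singleton, image_singleton, hij]
      simp
    rw [h3] at h1
    have e : ∀ i j : Fin 6, i ≠ j → k4 {i, j} = 2 ∧ k4 {i} = 1 := by decide
    have := e i j hne
    omega
  obtain ⟨I, hI⟩ := M.exists_isBasis' C
  have hC := rk_basis hI
  have hdisj : ∀ S : Finset (Fin 6), Disjoint C (x '' S) := by
    intro S
    rw [Set.disjoint_left]
    rintro a haC ⟨i, -, rfl⟩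
    exact hxC i haC
  have hfin : ∀ S : Finset (Fin 6), (x '' (S : Set (Fin 6)) ∪ I).Finite := fun S =>
    (S.finite_toSet.image x).union hI.indep.finite
  have hcard : ∀ S : Finset (Fin 6), (x '' (S : Set (Fin 6)) ∪ I).ncard = S.card + I.ncard := by
    intro S
    rw [ncard_union_eq _ (S.finite_toSet.image x) hI.indep.finite, ncard_image_of_injective _ hxinj,
      ncard_coe_finset]
    exact ((hdisj S).mono_left hI.subset).symm
  have hMind : ∀ S : Finset (Fin 6), M.Indep (x '' S ∪ I) ↔ k4 S = S.card := by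
    intro S
    have h1 := hx S
    rw [rk_union_basis hI, hC] at h1
    have h2 := hcard S
    constructor
    · intro h
      have h3 := rk_of_indep h
      omega
    · intro h
      refine indep_of_rk (hfin S) ?_
      omega
  refine ⟨M ／ C ＼ (M.E \ range x), ⟨C, _, rfl⟩, ?_⟩
  have hE : (M ／ C ＼ (M.E \ range x)).E = range x := by
    rw [delete_ground, contract_ground]
    ext a
    constructor
    · rintro ⟨⟨h1, h2⟩, h3⟩
      by_contra h4
      exact h3 ⟨h1, h4⟩
    · rintro ⟨i, rfl⟩
      exact ⟨⟨hxE i, hxC i⟩, fun h => h.2 ⟨i, rfl⟩⟩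
  refine ⟨fun a => psi (Function.invFun x a), ?_, ?_⟩
  · rw [hE]
    refine ⟨?_, ?_, ?_⟩
    · rintro _ ⟨i, rfl⟩
      exact psi_notDiag _
    · rintro _ ⟨i, rfl⟩ _ ⟨j, rfl⟩ hij
      have := psi_injective hij
      rw [Function.leftInverse_invFun hxinj, Function.leftInverse_invFun hxinj] at this
      rw [this]
    · intro e he
      obtain ⟨i, rfl⟩ := psi_surj e he
      exact ⟨x i, ⟨i, rfl⟩, by simp only [Function.leftInverse_invFun hxinj i]⟩
  · intro J hJ
    rw [hE] at hJ
    obtain ⟨S, rfl⟩ : ∃ S : Finset (Fin 6), J = x '' S := by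
      refine ⟨(x ⁻¹' J).toFinite.toFinset, ?_⟩
      rw [Finite.coe_toFinset, image_preimage_eq_of_subset hJ]
    have e1 : (fun a => psi (Function.invFun x a)) '' (x '' (S : Set (Fin 6))) =
        psi '' (S : Set (Fin 6)) := by
      rw [← image_comp]
      refine image_congr fun i _ => ?_
      simp only [Function.comp_apply, Function.leftInverse_invFun hxinj i]
    rw [e1, acyclic_iff, ← hMind S, delete_indep_iff, hI.contract_indep_iff]
    refine ⟨fun h => h.1.1, fun h => ⟨⟨h, hdisj S⟩, ?_⟩⟩
    rw [Set.disjoint_left]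
    rintro a ha ⟨-, ha'⟩
    exact ha' (image_subset_range _ _ ha)

theorem noK4_iff {M : Matroid α} (hM : M.Finite) :
    NoK4Minor α M ↔ ¬ HasK4 M := by
  constructor
  · rintro ⟨-, h⟩ hK
    obtain ⟨N, hN, hN'⟩ := minor_of_hasK4 hK
    exact h N hN hN'
  · intro h
    exact ⟨hM, fun N hN hK => h (hasK4_of_minor hN hK)⟩

end Pool.Agent.Helper53K9.MK
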