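import Pool.Agent.Helper53K9.MK.Rank

/-!
# Principal extensions and configurations of type `M(K₄)`
-/

set_option autoImplicit false

open Set

namespace Pool.Agent.Helper53K9.MK

section

variable {α : Type*} {r : Set α → ℕ}

/-- the flag is monotone -/
theorem flag_mono (h : RankFn r) {A B F : Set α} (hAB : A ⊆ B) (hA : r (A ∪ F) = r A) :
    r (B ∪ F) = r B := by
  refine le_antisymm ?_ (h.mono _ _ subset_union_left)
  have := h.sub' (A := B) (B := A ∪ F) (U := B ∪ F) (V := A) (by
    rintro a (ha | ha)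
    · exact Or.inl ha
    · exact Or.inr (Or.inr ha)) (subset_inter hAB subset_union_left)
  omega

/-- Replacing `x 0` by another element. -/
def repl (x : Fin 6 → α) (s : α) : Fin 6 → α := fun i => if i = 0 then s else x i

theorem repl_image_of_notMem (x : Fin 6 → α) (s : α) {T : Finset (Fin 6)} (hT : 0 ∉ T) :
    repl x s '' T = x '' T := by
  refine image_congr ?_
  intro i hi
  have : i ≠ 0 := by
    rintro rfl
    exact hT (by exact_mod_cast hi)
  simp [repl, this]

theorem repl_image_insert (x : Fin 6 → α) (s : α) {T : Finset (Fin 6)} (hT : 0 ∉ T) :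
    repl x s '' ((insert 0 T : Finset (Fin 6)) : Set (Fin 6)) = insert s (x '' T) := by
  rw [Finset.coe_insert, image_insert_eq, repl_image_of_notMem x s hT]
  simp [repl]

/-- Case 2: the new element is one of the points. -/
theorem config_mem (h : RankFn r)
    (hex : ∀ A F : Set α, r A < r (A ∪ F) → ∃ f ∈ F, r (insert f A) = r A + 1)
    {F C : Set α} {x : Fin 6 → α}
    (h0 : r C < r (C ∪ F))
    (hS : ∀ S : Finset (Fin 6), 0 ∉ S → r (C ∪ x '' S) = r C + k4 S)
    (h12 : r (C ∪ x '' (({1, 2} : Finset (Fin 6)) : Set (Fin 6)) ∪ F) =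
      r (C ∪ x '' (({1, 2} : Finset (Fin 6)) : Set (Fin 6))))
    (h34 : r (C ∪ x '' (({3, 4} : Finset (Fin 6)) : Set (Fin 6)) ∪ F) =
      r (C ∪ x '' (({3, 4} : Finset (Fin 6)) : Set (Fin 6)))) :
    ∃ y : Fin 6 → α, Config r C y := by
  obtain ⟨f, hf, hf1⟩ := hex C F h0
  refine ⟨repl x f, config_of_zero h ?_ ?_ ?_ ?_ ?_ ?_⟩
  · have e : repl x f '' (({0} : Finset (Fin 6)) : Set (Fin 6)) = {f} := by
      simp [repl]
    rw [e, union_singleton, hf1]
  · have e : repl x f '' (({0, 1, 2} : Finset (Fin 6)) : Set (Fin 6)) =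
        insert f (x '' (({1, 2} : Finset (Fin 6)) : Set (Fin 6))) :=
      repl_image_insert x f (by decide)
    rw [e]
    have e2 := hS {1, 2} (by decide)
    have e3 : k4 {1, 2} = 2 := by decide
    rw [e3] at e2
    rw [← e2, ← h12]
    refine h.mono _ _ ?_
    rintro a (ha | ha | ha)
    · exact Or.inl (Or.inl ha)
    · exact Or.inr (ha ▸ hf)
    · exact Or.inl (Or.inr ha)
  · have e : repl x f '' (({0, 3, 4} : Finset (Fin 6)) : Set (Fin 6)) =
        insert f (x '' (({3, 4} : Finset (Fin 6)) : Set (Fin 6))) :=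
      repl_image_insert x f (by decide)
    rw [e]
    have e2 := hS {3, 4} (by decide)
    have e3 : k4 {3, 4} = 2 := by decide
    rw [e3] at e2
    rw [← e2, ← h34]
    refine h.mono _ _ ?_
    rintro a (ha | ha | ha)
    · exact Or.inl (Or.inl ha)
    · exact Or.inr (ha ▸ hf)
    · exact Or.inl (Or.inr ha)
  · rw [repl_image_of_notMem x f (by decide), hS _ (by decide)]
    exact le_of_eq rfl
  · rw [repl_image_of_notMem x f (by decide), hS _ (by decide)]
    exact le_of_eq rfl
  · intro T hT hz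
    rw [repl_image_of_notMem x f hz, hS _ hz]
    have : k4 T = 3 := by
      unfold k4
      rw [if_neg, hT.1]
      · rfl
      · rintro (h | h | h | h)
        · exact hT.2.1 h
        · exact hT.2.2.1 h
        · exact hT.2.2.2.1 h
        · exact hT.2.2.2.2 h
    rw [this]

theorem k4_nl {T : Finset (Fin 6)} (hT : NL T) : k4 T = 3 := by
  unfold k4
  rw [if_neg, hT.1]
  · rfl
  · rintro (h | h | h | h)
    · exact hT.2.1 h
    · exact hT.2.2.1 h
    · exact hT.2.2.2.1 h
    · exact hT.2.2.2.2 h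

/-- Case 3: the new element is contracted; exactly the two lines through the point `0` span. -/
theorem config_two (h : RankFn r)
    (hex : ∀ A F : Set α, r A < r (A ∪ F) → ∃ f ∈ F, r (insert f A) = r A + 1)
    {F C : Set α} {x : Fin 6 → α} {c : ℕ} (hc : r C = c)
    (hNL : ∀ T : Finset (Fin 6), NL T → r (C ∪ x '' T) = c + 3)
    (hall : r (C ∪ x '' ((Finset.univ : Finset (Fin 6)) : Set (Fin 6))) = c + 4)
    (h0 : r (C ∪ x '' (({0} : Finset (Fin 6)) : Set (Fin 6)) ∪ F) = c + 2)
    (h0' : r (C ∪ x '' (({0} : Finset (Fin 6)) : Set (Fin 6))) = c + 1)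
    (h1 : r (C ∪ x '' (({0, 1, 2} : Finset (Fin 6)) : Set (Fin 6))) = c + 3)
    (h1' : r (C ∪ x '' (({0, 1, 2} : Finset (Fin 6)) : Set (Fin 6)) ∪ F) = c + 3)
    (h2 : r (C ∪ x '' (({0, 3, 4} : Finset (Fin 6)) : Set (Fin 6))) = c + 3)
    (h2' : r (C ∪ x '' (({0, 3, 4} : Finset (Fin 6)) : Set (Fin 6)) ∪ F) = c + 3)
    (h3 : r (C ∪ x '' (({1, 3, 5} : Finset (Fin 6)) : Set (Fin 6))) = c + 2)
    (h4 : r (C ∪ x '' (({2, 4, 5} : Finset (Fin 6)) : Set (Fin 6))) = c + 2) :
    ∃ (D : Set α) (y : Fin 6 → α), Config r D y := by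
  obtain ⟨D, hD⟩ : ∃ D, D = C ∪ x '' (({0} : Finset (Fin 6)) : Set (Fin 6)) := ⟨_, rfl⟩
  rw [← hD] at h0 h0'
  obtain ⟨s, hs, hs1⟩ := hex D F (by omega)
  have hDx : ∀ T : Finset (Fin 6), D ∪ x '' T =
      C ∪ x '' ((insert 0 T : Finset (Fin 6)) : Set (Fin 6)) := by
    intro T
    rw [hD, Finset.coe_insert, image_insert_eq, Finset.coe_singleton, image_singleton,
      union_assoc, singleton_union]
  -- the plane of the lines that do not contain `0`
  have five : r (C ∪ x '' (({5} : Finset (Fin 6)) : Set (Fin 6))) ≥ c + 1 := by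
    have e1 := hNL {1, 2, 5} (by decide)
    have e2 := h.fin_card C x {5} {1, 2}
    have e3 : ({5} ∪ {1, 2} : Finset (Fin 6)) = {1, 2, 5} := by decide
    rw [e3, e1] at e2
    have e4 : ({1, 2} : Finset (Fin 6)).card = 2 := rfl
    omega
  have plane : r (C ∪ x '' (({1, 2, 3, 4, 5} : Finset (Fin 6)) : Set (Fin 6))) ≤ c + 3 := by
    have := h.fin C x {1, 3, 5} {2, 4, 5} {1, 2, 3, 4, 5} {5} (by decide) (by decide)
    omega
  have hT : ∀ T : Finset (Fin 6), NL T → 0 ∉ T →
      c + 4 ≤ r (C ∪ x '' ((insert 0 T : Finset (Fin 6)) : Set (Fin 6))) := by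
    intro T hT hz
    have e1 := h.fin C x (insert 0 T) {1, 2, 3, 4, 5} Finset.univ T (by
      intro i _
      rw [Finset.mem_union]
      by_cases hi : i = 0
      · left; rw [hi]; exact Finset.mem_insert_self _ _
      · right; clear hT hz; revert hi; revert i; decide) (by
      intro i hi
      rw [Finset.mem_inter]
      refine ⟨Finset.mem_insert_of_mem hi, ?_⟩
      have : i ≠ 0 := by rintro rfl; exact hz hi
      clear hi; revert this; revert i; decide)
    have e2 := hNL T hT
    omega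
  refine ⟨D, repl x s, config_of_zero h ?_ ?_ ?_ ?_ ?_ ?_⟩
  · have e : repl x s '' (({0} : Finset (Fin 6)) : Set (Fin 6)) = {s} := by
      simp [repl]
    rw [e, union_singleton, hs1]
  · have e : repl x s '' (({0, 1, 2} : Finset (Fin 6)) : Set (Fin 6)) =
        insert s (x '' (({1, 2} : Finset (Fin 6)) : Set (Fin 6))) :=
      repl_image_insert x s (by decide)
    rw [e]
    have e2 : r (D ∪ insert s (x '' (({1, 2} : Finset (Fin 6)) : Set (Fin 6)))) ≤ c + 3 := by
      rw [← h1']
      refine h.mono _ _ ?_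
      rintro a (ha | ha | ha)
      · left
        rw [hD] at ha
        rcases ha with ha | ha
        · exact Or.inl ha
        · exact Or.inr (image_mono (by simp) ha)
      · exact Or.inr (ha ▸ hs)
      · left; right
        exact image_mono (by simp) ha
    omega
  · have e : repl x s '' (({0, 3, 4} : Finset (Fin 6)) : Set (Fin 6)) =
        insert s (x '' (({3, 4} : Finset (Fin 6)) : Set (Fin 6))) :=
      repl_image_insert x s (by decide)
    rw [e]
    have e2 : r (D ∪ insert s (x '' (({3, 4} : Finset (Fin 6)) : Set (Fin 6)))) ≤ c + 3 := by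
      rw [← h2']
      refine h.mono _ _ ?_
      rintro a (ha | ha | ha)
      · left
        rw [hD] at ha
        rcases ha with ha | ha
        · exact Or.inl ha
        · exact Or.inr (image_mono (by simp) ha)
      · exact Or.inr (ha ▸ hs)
      · left; right
        exact image_mono (by simp) ha
    omega
  · rw [repl_image_of_notMem x s (by decide), hDx]
    have := h.fin_insert C x {1, 3, 5} 0
    omega
  · rw [repl_image_of_notMem x s (by decide), hDx]
    have := h.fin_insert C x {2, 4, 5} 0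
    omega
  · intro T hT' hz
    rw [repl_image_of_notMem x s hz, hDx]
    have := hT T hT' hz
    omega

theorem comp_image (x : Fin 6 → α) (p : Fin 6) (S : Finset (Fin 6)) :
    (x ∘ perm p) '' S = x '' ((S.image (perm p) : Finset (Fin 6)) : Set (Fin 6)) := by
  rw [Finset.coe_image, image_comp]

theorem nl_perm : ∀ (p : Fin 6) (T : Finset (Fin 6)), NL T → NL (T.image (perm p)) := by
  decide +kernel

theorem univ_perm : ∀ p : Fin 6, (Finset.univ : Finset (Fin 6)).image (perm p) = Finset.univ := by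
  decide

/-- `config_two` with another point in place of `0`. -/
theorem config_two' (h : RankFn r)
    (hex : ∀ A F : Set α, r A < r (A ∪ F) → ∃ f ∈ F, r (insert f A) = r A + 1)
    {F C : Set α} {x : Fin 6 → α} {c : ℕ} (hc : r C = c)
    (hNL : ∀ T : Finset (Fin 6), NL T → r (C ∪ x '' T) = c + 3)
    (hall : r (C ∪ x '' ((Finset.univ : Finset (Fin 6)) : Set (Fin 6))) = c + 4)
    (p : Fin 6) (P A1 A2 A3 A4 : Finset (Fin 6))
    (eP : ({0} : Finset (Fin 6)).image (perm p) = P)
    (e1 : ({0, 1, 2} : Finset (Fin 6)).image (perm p) = A1)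
    (e2 : ({0, 3, 4} : Finset (Fin 6)).image (perm p) = A2)
    (e3 : ({1, 3, 5} : Finset (Fin 6)).image (perm p) = A3)
    (e4 : ({2, 4, 5} : Finset (Fin 6)).image (perm p) = A4)
    (h0 : r (C ∪ x '' P ∪ F) = c + 2)
    (h0' : r (C ∪ x '' P) = c + 1)
    (h1 : r (C ∪ x '' A1) = c + 3)
    (h1' : r (C ∪ x '' A1 ∪ F) = c + 3)
    (h2 : r (C ∪ x '' A2) = c + 3)
    (h2' : r (C ∪ x '' A2 ∪ F) = c + 3)
    (h3 : r (C ∪ x '' A3) = c + 2)
    (h4 : r (C ∪ x '' A4) = c + 2) :
    ∃ (D : Set α) (y : Fin 6 → α), Config r D y := by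
  refine config_two h hex (F := F) (x := x ∘ perm p) hc ?_ ?_ ?_ ?_ ?_ ?_ ?_ ?_ ?_ ?_
  · intro T hT
    rw [comp_image]
    exact hNL _ (nl_perm p T hT)
  · rw [comp_image, univ_perm]
    exact hall
  · rw [comp_image, eP]; exact h0
  · rw [comp_image, eP]; exact h0'
  · rw [comp_image, e1]; exact h1
  · rw [comp_image, e1]; exact h1'
  · rw [comp_image, e2]; exact h2
  · rw [comp_image, e2]; exact h2'
  · rw [comp_image, e3]; exact h3
  · rw [comp_image, e4]; exact h4

/-- Case 3, main part. -/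
theorem config_contract (h : RankFn r)
    (hex : ∀ A F : Set α, r A < r (A ∪ F) → ∃ f ∈ F, r (insert f A) = r A + 1)
    {F C : Set α} {x : Fin 6 → α}
    (hS : ∀ S : Finset (Fin 6), r (C ∪ x '' S) +
      (if r (C ∪ x '' S ∪ F) = r (C ∪ x '' S) then 0 else 1) =
      r C + (if r (C ∪ F) = r C then 0 else 1) + k4 S) :
    ∃ (D : Set α) (y : Fin 6 → α), Config r D y := by
  by_cases hfl : r (C ∪ F) = r C
  · refine ⟨C, x, fun S => ?_⟩
    have e1 := hS S
    rw [if_pos hfl, if_pos (flag_mono h subset_union_left hfl)] at e1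
    exact e1
  simp only [if_neg hfl] at hS
  by_cases hall : r (C ∪ x '' ((Finset.univ : Finset (Fin 6)) : Set (Fin 6)) ∪ F) =
      r (C ∪ x '' ((Finset.univ : Finset (Fin 6)) : Set (Fin 6)))
  swap
  · refine ⟨C, x, fun S => ?_⟩
    have e1 := hS S
    rw [if_neg] at e1
    · omega
    · intro e2
      refine hall (flag_mono h ?_ e2)
      exact union_subset_union_right _ (image_mono (by exact_mod_cast Finset.subset_univ S))
  have hall4 := hS Finset.univ
  rw [if_pos hall] at hall4
  have ek : k4 Finset.univ = 3 := by decide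
  rw [ek] at hall4
  obtain ⟨c, hc⟩ : ∃ c, r C = c := ⟨_, rfl⟩
  rw [hc] at hS hfl hall4
  have hCF : c < r (C ∪ F) := by
    have := h.mono C (C ∪ F) subset_union_left
    omega
  by_cases h1 : r (C ∪ F) = c + 1
  · -- `F` has rank one
    obtain ⟨f, hf, hf1⟩ := hex C F (by omega)
    refine ⟨insert f C, x, fun S => ?_⟩
    have e1 := hS S
    have e0 : insert f C ∪ x '' S = insert f (C ∪ x '' S) := insert_union
    rw [e0, hf1, hc]
    by_cases h2 : r (C ∪ x '' S ∪ F) = r (C ∪ x '' S)
    · rw [if_pos h2] at e1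
      have e2 : r (insert f (C ∪ x '' S)) ≤ r (C ∪ x '' S ∪ F) := by
        refine h.mono _ _ ?_
        rintro a (ha | ha)
        · exact Or.inr (ha ▸ hf)
        · exact Or.inl ha
      have e3 := h.mono (C ∪ x '' S) (insert f (C ∪ x '' S)) (subset_insert _ _)
      omega
    · rw [if_neg h2] at e1
      have e2 := h.sub' (A := insert f (C ∪ x '' S)) (B := C ∪ F) (U := C ∪ x '' S ∪ F)
        (V := insert f C) (by
          rintro a ((ha | ha) | ha)
          · exact Or.inr (Or.inl ha)
          · exact Or.inl (Or.inr (Or.inr ha))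
          · exact Or.inr (Or.inr ha)) (by
          rintro a (ha | ha)
          · exact ⟨Or.inl ha, Or.inr (ha ▸ hf)⟩
          · exact ⟨Or.inr (Or.inl ha), Or.inl ha⟩)
      have e3 := h.mono (C ∪ x '' S) (C ∪ x '' S ∪ F) subset_union_left
      have e4 := h.ins f (C ∪ x '' S)
      omega
  have h2 : c + 2 ≤ r (C ∪ F) := by omega
  -- triples
  have hNL : ∀ T : Finset (Fin 6), NL T → r (C ∪ x '' T) = c + 3 := by
    intro T hT
    have e1 := hS T
    rw [k4_nl hT] at e1
    have e2 := h.fin_card C x ∅ T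
    rw [Finset.empty_union, RankFn.fin_empty r, hT.1, hc] at e2
    split_ifs at e1 with h3
    · omega
    · omega
  -- single points
  have hpt : ∀ p : Fin 6, r (C ∪ x '' (({p} : Finset (Fin 6)) : Set (Fin 6))) = c + 1 := by
    intro p
    obtain ⟨T, hT, hpT⟩ := nl_aux1 {p} (by simp)
    have e1 := hNL T hT
    have e2 := h.fin_card C x {p} (T \ {p})
    have e3 : (T \ {p}).card + ({p} : Finset (Fin 6)).card = T.card :=
      Finset.card_sdiff_add_card_eq_card hpT
    rw [Finset.union_sdiff_of_subset hpT, e1] at e2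
    rw [hT.1, Finset.card_singleton] at e3
    have e4 := h.fin_card C x ∅ {p}
    rw [Finset.empty_union, RankFn.fin_empty r, hc, Finset.card_singleton] at e4
    omega
  -- two spanning lines
  have two : ∀ (L L' U : Finset (Fin 6)) (p : Fin 6), U ⊆ L ∪ L' → p ∈ L → p ∈ L' → k4 L = 2 →
      k4 L' = 2 → k4 U = 3 → L ⊆ U →
      r (C ∪ x '' L ∪ F) = r (C ∪ x '' L) → r (C ∪ x '' L' ∪ F) = r (C ∪ x '' L') →
      r (C ∪ x '' (({p} : Finset (Fin 6)) : Set (Fin 6)) ∪ F) ≤ c + 2 := by
    intro L L' U p hU hp hp' hL hL' hU3 hLU hF hF'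
    have e1 := hS L
    have e2 := hS L'
    have e3 := hS U
    have e4 : r (C ∪ x '' U ∪ F) = r (C ∪ x '' U) :=
      flag_mono h (union_subset_union_right _ (image_mono (by exact_mod_cast hLU))) hF
    rw [if_pos hF, hL] at e1
    rw [if_pos hF', hL'] at e2
    rw [if_pos e4, hU3] at e3
    have e5 := h.sub' (A := C ∪ x '' L ∪ F) (B := C ∪ x '' L' ∪ F) (U := C ∪ x '' U)
      (V := C ∪ x '' (({p} : Finset (Fin 6)) : Set (Fin 6)) ∪ F) (by
        rintro a (ha | ⟨i, hi, rfl⟩)
        · exact Or.inl (Or.inl (Or.inl ha))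
        · have hi' : i ∈ L ∪ L' := hU (by exact_mod_cast hi)
          rcases Finset.mem_union.1 hi' with h5 | h5
          · exact Or.inl (Or.inl (Or.inr ⟨i, by exact_mod_cast h5, rfl⟩))
          · exact Or.inr (Or.inl (Or.inr ⟨i, by exact_mod_cast h5, rfl⟩))) (by
        rintro a ((ha | ⟨i, hi, rfl⟩) | ha)
        · exact ⟨Or.inl (Or.inl ha), Or.inl (Or.inl ha)⟩
        · have hi' : i = p := by simpa using hi
          subst hi'
          exact ⟨Or.inl (Or.inr ⟨i, by exact_mod_cast hp, rfl⟩),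
            Or.inl (Or.inr ⟨i, by exact_mod_cast hp', rfl⟩)⟩
        · exact ⟨Or.inr ha, Or.inr ha⟩)
    omega
  -- three spanning lines
  have three : ∀ (T : Finset (Fin 6)) (p q s : Fin 6), T = {p, q, s} → NL T →
      r (C ∪ x '' (({p} : Finset (Fin 6)) : Set (Fin 6)) ∪ F) ≤ c + 2 →
      r (C ∪ x '' (({q} : Finset (Fin 6)) : Set (Fin 6)) ∪ F) ≤ c + 2 →
      r (C ∪ x '' (({s} : Finset (Fin 6)) : Set (Fin 6)) ∪ F) ≤ c + 2 → False := by
    intro T p q s hT hT' e1 e2 e3
    have e4 := h.sub' (A := C ∪ x '' (({p} : Finset (Fin 6)) : Set (Fin 6)) ∪ F)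
      (B := C ∪ x '' (({q} : Finset (Fin 6)) : Set (Fin 6)) ∪ F)
      (U := C ∪ x '' (({p, q} : Finset (Fin 6)) : Set (Fin 6)) ∪ F) (V := C ∪ F) (by
        rintro a ((ha | ⟨i, hi, rfl⟩) | ha)
        · exact Or.inl (Or.inl (Or.inl ha))
        · rw [Finset.coe_insert, Finset.coe_singleton] at hi
          rcases hi with rfl | hi
          · exact Or.inl (Or.inl (Or.inr ⟨i, by simp, rfl⟩))
          · exact Or.inr (Or.inl (Or.inr ⟨i, by simpa using hi, rfl⟩))
        · exact Or.inl (Or.inr ha)) (by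
        rintro a (ha | ha)
        · exact ⟨Or.inl (Or.inl ha), Or.inl (Or.inl ha)⟩
        · exact ⟨Or.inr ha, Or.inr ha⟩)
    have e5 := h.sub' (A := C ∪ x '' (({p, q} : Finset (Fin 6)) : Set (Fin 6)) ∪ F)
      (B := C ∪ x '' (({s} : Finset (Fin 6)) : Set (Fin 6)) ∪ F)
      (U := C ∪ x '' T) (V := C ∪ F) (by
        rintro a (ha | ⟨i, hi, rfl⟩)
        · exact Or.inl (Or.inl (Or.inl ha))
        · rw [hT, Finset.coe_insert, Finset.coe_insert, Finset.coe_singleton] at hi
          rcases hi with rfl | rfl | hi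
          · exact Or.inl (Or.inl (Or.inr ⟨i, by simp, rfl⟩))
          · exact Or.inl (Or.inl (Or.inr ⟨i, by simp, rfl⟩))
          · exact Or.inr (Or.inl (Or.inr ⟨i, by simpa using hi, rfl⟩))) (by
        rintro a (ha | ha)
        · exact ⟨Or.inl (Or.inl ha), Or.inl (Or.inl ha)⟩
        · exact ⟨Or.inr ha, Or.inr ha⟩)
    have e6 := hNL T hT'
    omega
  -- three lines of rank two
  have flat : ∀ (L L' L'' U : Finset (Fin 6)) (p q s : Fin 6), U ⊆ L ∪ L' → p ∈ L → p ∈ L' →
      Finset.univ ⊆ U ∪ L'' → q ∈ U → s ∈ U → q ∈ L'' → s ∈ L'' → q ≠ s →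
      r (C ∪ x '' L) ≤ c + 2 → r (C ∪ x '' L') ≤ c + 2 → r (C ∪ x '' L'') ≤ c + 2 → False := by
    intro L L' L'' U p q s hU hp hp' hu hq hs hq' hs' hqs e1 e2 e3
    have e4 := h.fin C x L L' U {p} hU (by
      rw [Finset.singleton_subset_iff, Finset.mem_inter]; exact ⟨hp, hp'⟩)
    have e5 := h.fin C x U L'' Finset.univ {q, s} hu (by
      intro i hi
      rw [Finset.mem_insert, Finset.mem_singleton] at hi
      rw [Finset.mem_inter]
      rcases hi with rfl | rfl
      · exact ⟨hq, hq'⟩
      · exact ⟨hs, hs'⟩)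
    have e6 := hpt p
    obtain ⟨T, hT, hpT⟩ := nl_aux1 {q, s} (Finset.card_le_two)
    have e7 := hNL T hT
    have e8 := h.fin_card C x {q, s} (T \ {q, s})
    have e9 : (T \ {q, s}).card + ({q, s} : Finset (Fin 6)).card = T.card :=
      Finset.card_sdiff_add_card_eq_card hpT
    rw [Finset.union_sdiff_of_subset hpT, e7] at e8
    rw [hT.1, Finset.card_pair hqs] at e9
    omega
  have hL1 := hS {0, 1, 2}
  have hL2 := hS {0, 3, 4}
  have hL3 := hS {1, 3, 5}
  have hL4 := hS {2, 4, 5}
  have k1 : k4 {0, 1, 2} = 2 := by decide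
  have k2 : k4 {0, 3, 4} = 2 := by decide
  have k3 : k4 {1, 3, 5} = 2 := by decide
  have k5 : k4 {2, 4, 5} = 2 := by decide
  rw [k1] at hL1
  rw [k2] at hL2
  rw [k3] at hL3
  rw [k5] at hL4
  have hpF : ∀ p : Fin 6, c + 2 ≤ r (C ∪ x '' (({p} : Finset (Fin 6)) : Set (Fin 6)) ∪ F) := by
    intro p
    refine h2.trans (h.mono _ _ ?_)
    rintro a (ha | ha)
    · exact Or.inl (Or.inl ha)
    · exact Or.inr ha
  have fin2 : ∀ (p : Fin 6) (A1 A2 A3 A4 : Finset (Fin 6)),
      ({0} : Finset (Fin 6)).image (perm p) = {p} →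
      ({0, 1, 2} : Finset (Fin 6)).image (perm p) = A1 →
      ({0, 3, 4} : Finset (Fin 6)).image (perm p) = A2 →
      ({1, 3, 5} : Finset (Fin 6)).image (perm p) = A3 →
      ({2, 4, 5} : Finset (Fin 6)).image (perm p) = A4 →
      r (C ∪ x '' (({p} : Finset (Fin 6)) : Set (Fin 6)) ∪ F) ≤ c + 2 →
      r (C ∪ x '' A1) = c + 3 → r (C ∪ x '' A1 ∪ F) = r (C ∪ x '' A1) →
      r (C ∪ x '' A2) = c + 3 → r (C ∪ x '' A2 ∪ F) = r (C ∪ x '' A2) →
      r (C ∪ x '' A3) = c + 2 → r (C ∪ x '' A4) = c + 2 →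
      ∃ (D : Set α) (y : Fin 6 → α), Config r D y := by
    intro p A1 A2 A3 A4 eP e1 e2 e3 e4 h0 a1 b1 a2 b2 a3 a4
    exact config_two' h hex hc hNL (by omega) p {p} A1 A2 A3 A4 eP e1 e2 e3 e4
      (le_antisymm h0 (hpF p)) (hpt p) a1 (b1.trans a1) a2 (b2.trans a2) a3 a4
  by_cases f1 : r (C ∪ x '' (({0, 1, 2} : Finset (Fin 6)) : Set (Fin 6)) ∪ F) =
      r (C ∪ x '' (({0, 1, 2} : Finset (Fin 6)) : Set (Fin 6))) <;>
  by_cases f2 : r (C ∪ x '' (({0, 3, 4} : Finset (Fin 6)) : Set (Fin 6)) ∪ F) =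
      r (C ∪ x '' (({0, 3, 4} : Finset (Fin 6)) : Set (Fin 6))) <;>
  by_cases f3 : r (C ∪ x '' (({1, 3, 5} : Finset (Fin 6)) : Set (Fin 6)) ∪ F) =
      r (C ∪ x '' (({1, 3, 5} : Finset (Fin 6)) : Set (Fin 6))) <;>
  by_cases f4 : r (C ∪ x '' (({2, 4, 5} : Finset (Fin 6)) : Set (Fin 6)) ∪ F) =
      r (C ∪ x '' (({2, 4, 5} : Finset (Fin 6)) : Set (Fin 6)))
  all_goals simp only [f1, f2, f3, f4, if_true, if_false] at hL1 hL2 hL3 hL4
  · exact (three {0, 1, 3} 0 1 3 rfl (by decide)
      (two _ _ {0, 1, 2, 3, 4} 0 (by decide) (by decide) (by decide) k1 k2 (by decide) (by decide)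
        f1 f2)
      (two _ _ {0, 1, 2, 3, 5} 1 (by decide) (by decide) (by decide) k1 k3 (by decide) (by decide)
        f1 f3)
      (two _ _ {0, 3, 4, 1, 5} 3 (by decide) (by decide) (by decide) k2 k3 (by decide) (by decide)
        f2 f3)).elim
  · exact (three {0, 1, 3} 0 1 3 rfl (by decide)
      (two _ _ {0, 1, 2, 3, 4} 0 (by decide) (by decide) (by decide) k1 k2 (by decide) (by decide)
        f1 f2)
      (two _ _ {0, 1, 2, 3, 5} 1 (by decide) (by decide) (by decide) k1 k3 (by decide) (by decide)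
        f1 f3)
      (two _ _ {0, 3, 4, 1, 5} 3 (by decide) (by decide) (by decide) k2 k3 (by decide) (by decide)
        f2 f3)).elim
  · exact (three {0, 2, 4} 0 2 4 rfl (by decide)
      (two _ _ {0, 1, 2, 3, 4} 0 (by decide) (by decide) (by decide) k1 k2 (by decide) (by decide)
        f1 f2)
      (two _ _ {0, 1, 2, 4, 5} 2 (by decide) (by decide) (by decide) k1 k5 (by decide) (by decide)
        f1 f4)
      (two _ _ {0, 3, 4, 2, 5} 4 (by decide) (by decide) (by decide) k2 k5 (by decide) (by decide)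
        f2 f4)).elim
  · exact fin2 0 {0, 1, 2} {0, 3, 4} {1, 3, 5} {2, 4, 5} (by decide) (by decide) (by decide)
      (by decide) (by decide) (two _ _ {0, 1, 2, 3, 4} 0 (by decide) (by decide) (by decide) k1 k2
        (by decide) (by decide) f1 f2) (by omega) f1 (by omega) f2 (by omega) (by omega)
  · exact (three {1, 2, 5} 1 2 5 rfl (by decide)
      (two _ _ {0, 1, 2, 3, 5} 1 (by decide) (by decide) (by decide) k1 k3 (by decide) (by decide)
        f1 f3)
      (two _ _ {0, 1, 2, 4, 5} 2 (by decide) (by decide) (by decide) k1 k5 (by decide) (by decide)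
        f1 f4)
      (two _ _ {1, 3, 5, 2, 4} 5 (by decide) (by decide) (by decide) k3 k5 (by decide) (by decide)
        f3 f4)).elim
  · exact fin2 1 {0, 1, 2} {1, 3, 5} {0, 3, 4} {2, 4, 5} (by decide) (by decide) (by decide)
      (by decide) (by decide) (two _ _ {0, 1, 2, 3, 5} 1 (by decide) (by decide) (by decide) k1 k3
        (by decide) (by decide) f1 f3) (by omega) f1 (by omega) f3 (by omega) (by omega)
  · exact fin2 2 {0, 1, 2} {2, 4, 5} {1, 3, 5} {0, 3, 4} (by decide) (by decide) (by decide)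
      (by decide) (by decide) (two _ _ {0, 1, 2, 4, 5} 2 (by decide) (by decide) (by decide) k1 k5
        (by decide) (by decide) f1 f4) (by omega) f1 (by omega) f4 (by omega) (by omega)
  · exact (flat {0, 3, 4} {1, 3, 5} {2, 4, 5} {0, 1, 3, 4, 5} 3 4 5 (by decide) (by decide)
      (by decide) (by decide) (by decide) (by decide) (by decide) (by decide) (by decide)
      (by omega) (by omega) (by omega)).elim
  · exact (three {3, 4, 5} 3 4 5 rfl (by decide)
      (two _ _ {0, 3, 4, 1, 5} 3 (by decide) (by decide) (by decide) k2 k3 (by decide) (by decide)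
        f2 f3)
      (two _ _ {0, 3, 4, 2, 5} 4 (by decide) (by decide) (by decide) k2 k5 (by decide) (by decide)
        f2 f4)
      (two _ _ {1, 3, 5, 2, 4} 5 (by decide) (by decide) (by decide) k3 k5 (by decide) (by decide)
        f3 f4)).elim
  · exact fin2 3 {0, 3, 4} {1, 3, 5} {0, 1, 2} {2, 4, 5} (by decide) (by decide) (by decide)
      (by decide) (by decide) (two _ _ {0, 3, 4, 1, 5} 3 (by decide) (by decide) (by decide) k2 k3
        (by decide) (by decide) f2 f3) (by omega) f2 (by omega) f3 (by omega) (by omega)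
  · exact fin2 4 {0, 3, 4} {2, 4, 5} {0, 1, 2} {1, 3, 5} (by decide) (by decide) (by decide)
      (by decide) (by decide) (two _ _ {0, 3, 4, 2, 5} 4 (by decide) (by decide) (by decide) k2 k5
        (by decide) (by decide) f2 f4) (by omega) f2 (by omega) f4 (by omega) (by omega)
  · exact (flat {0, 1, 2} {1, 3, 5} {2, 4, 5} {0, 1, 2, 3, 5} 1 2 5 (by decide) (by decide)
      (by decide) (by decide) (by decide) (by decide) (by decide) (by decide) (by decide)
      (by omega) (by omega) (by omega)).elim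
  · exact fin2 5 {1, 3, 5} {2, 4, 5} {0, 1, 2} {0, 3, 4} (by decide) (by decide) (by decide)
      (by decide) (by decide) (two _ _ {1, 3, 5, 2, 4} 5 (by decide) (by decide) (by decide) k3 k5
        (by decide) (by decide) f3 f4) (by omega) f3 (by omega) f4 (by omega) (by omega)
  · exact (flat {0, 1, 2} {0, 3, 4} {2, 4, 5} {0, 1, 2, 3, 4} 0 2 4 (by decide) (by decide)
      (by decide) (by decide) (by decide) (by decide) (by decide) (by decide) (by decide)
      (by omega) (by omega) (by omega)).elim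
  · exact (flat {0, 1, 2} {0, 3, 4} {1, 3, 5} {0, 1, 2, 3, 4} 0 1 3 (by decide) (by decide)
      (by decide) (by decide) (by decide) (by decide) (by decide) (by decide) (by decide)
      (by omega) (by omega) (by omega)).elim
  · exact (flat {0, 1, 2} {0, 3, 4} {1, 3, 5} {0, 1, 2, 3, 4} 0 1 3 (by decide) (by decide)
      (by decide) (by decide) (by decide) (by decide) (by decide) (by decide) (by decide)
      (by omega) (by omega) (by omega)).elim

/-- A configuration for the rank function `r'` of a principal extension gives one for `r`. -/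
theorem config_ext (h : RankFn r)
    (hex : ∀ A F : Set α, r A < r (A ∪ F) → ∃ f ∈ F, r (insert f A) = r A + 1)
    {r' : Set α → ℕ} {e : α} {F : Set α}
    (h1 : ∀ A : Set α, e ∉ A → r' A = r A)
    (h2 : ∀ A : Set α, e ∉ A → r' (insert e A) = r A + (if r (A ∪ F) = r A then 0 else 1))
    {C : Set α} {x : Fin 6 → α} (hx : Config r' C x) :
    ∃ (D : Set α) (y : Fin 6 → α), Config r D y := by
  have hpt : ∀ p : Fin 6, r' (insert (x p) C) = r' C + 1 := by
    intro p
    have := hx {p}
    rw [Finset.coe_singleton, image_singleton, union_singleton] at this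
    rw [this]
    revert p
    have : ∀ p : Fin 6, k4 {p} = 1 := by decide
    intro p _
    rw [this p]
  have hxC : ∀ p : Fin 6, x p ∉ C := by
    intro p hp
    have := hpt p
    rw [insert_eq_of_mem hp] at this
    omega
  by_cases he : e ∈ C
  · -- the new element is contracted
    obtain ⟨B, hB, hBe⟩ : ∃ B : Set α, insert e B = C ∧ e ∉ B :=
      ⟨C \ {e}, insert_sdiff_self_of_mem he, by simp⟩
    have hxe : ∀ p : Fin 6, x p ≠ e := fun p hp => hxC p (hp ▸ he)
    refine config_contract h hex (F := F) (C := B) (x := x) ?_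
    intro S
    have e1 := hx S
    rw [← hB] at e1
    have e2 : insert e B ∪ x '' S = insert e (B ∪ x '' S) := insert_union
    have e3 : e ∉ B ∪ x '' S := by
      rintro (h | ⟨i, -, h⟩)
      · exact hBe h
      · exact hxe i h
    rw [e2, h2 _ e3, h2 _ hBe] at e1
    exact e1
  by_cases hex' : ∃ p, x p = e
  · obtain ⟨p, hp⟩ := hex'
    have hy := hx.perm p
    obtain ⟨y, hy'⟩ : ∃ y, y = x ∘ perm p := ⟨_, rfl⟩
    rw [← hy'] at hy
    have hy0 : y 0 = e := by rw [hy', Function.comp_apply, perm_zero, hp]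
    have hinj : ∀ i : Fin 6, i ≠ 0 → y i ≠ e := by
      intro i hi hie
      have e1 := hy {0, i}
      have e2 := hy {i}
      have e3 : y '' (({0, i} : Finset (Fin 6)) : Set (Fin 6)) =
          y '' (({i} : Finset (Fin 6)) : Set (Fin 6)) := by
        rw [Finset.coe_insert, image_insert_eq, Finset.coe_singleton, image_singleton, hy0, hie]
        simp
      rw [e3] at e1
      have e4 : ∀ i : Fin 6, i ≠ 0 → k4 {0, i} = 2 ∧ k4 {i} = 1 := by decide
      have := e4 i hi
      omega
    have hout : ∀ S : Finset (Fin 6), 0 ∉ S → e ∉ C ∪ y '' S := by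
      intro S hS
      rintro (h | ⟨i, hi, h⟩)
      · exact he h
      · refine hinj i ?_ h
        rintro rfl
        exact hS (by exact_mod_cast hi)
    have hS : ∀ S : Finset (Fin 6), 0 ∉ S → r (C ∪ y '' S) = r C + k4 S := by
      intro S hS
      rw [← h1 _ (hout S hS), ← h1 _ he]
      exact hy S
    have hin : ∀ S : Finset (Fin 6), 0 ∉ S →
        r (C ∪ y '' S) + (if r (C ∪ y '' S ∪ F) = r (C ∪ y '' S) then 0 else 1) =
          r C + k4 (insert 0 S) := by
      intro S hS
      rw [← h2 _ (hout S hS), ← h1 _ he, ← hy (insert 0 S), Finset.coe_insert, image_insert_eq, hy0,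
        union_insert]
    refine ⟨C, config_mem h hex (F := F) ?_ hS ?_ ?_⟩
    · have e1 := hin ∅ (by decide)
      have e2 : k4 (insert 0 ∅) = 1 := by decide
      rw [e2] at e1
      simp only [Finset.coe_empty, image_empty, union_empty] at e1
      have e3 := h.mono C (C ∪ F) subset_union_left
      split_ifs at e1 with h3
      · omega
      · omega
    · have e1 := hin {1, 2} (by decide)
      have e2 := hS {1, 2} (by decide)
      have e3 : k4 (insert 0 {1, 2}) = 2 := by decide
      have e4 : k4 {1, 2} = 2 := by decide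
      rw [e3] at e1
      rw [e4] at e2
      split_ifs at e1 with h3
      · exact h3
      · omega
    · have e1 := hin {3, 4} (by decide)
      have e2 := hS {3, 4} (by decide)
      have e3 : k4 (insert 0 {3, 4}) = 2 := by decide
      have e4 : k4 {3, 4} = 2 := by decide
      rw [e3] at e1
      rw [e4] at e2
      split_ifs at e1 with h3
      · exact h3
      · omega
  · push Not at hex'
    refine ⟨C, x, fun S => ?_⟩
    rw [← h1 _ he, ← h1, hx S]
    rintro (h | ⟨i, -, h⟩)
    · exact he h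
    · exact hex' i h

end

end Pool.Agent.Helper53K9.MK
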