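import Pool.Agent.Helper53K9.MK.Bip

/-!
# Linkings and matchings
-/

set_option autoImplicit false

open Set Matroid

namespace Pool.Agent.Helper53K9.MK

variable {T : Type}

/-- A linking of `I` onto `J` gives a matching of the complements. -/
theorem matching_of_linked {Γ : T → T → Prop} {I J : Set T} (h : Linked Γ I J) :
    ∃ g : T → T, BijOn g Iᶜ Jᶜ ∧ ∀ w ∈ Iᶜ, w = g w ∨ Γ (g w) w := by
  classical
  obtain ⟨σ, P, hσ, hP, hdis⟩ := h
  have hsame : ∀ a ∈ I, ∀ b ∈ I, ∀ w, w ∈ P a → w ∈ P b → a = b := by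
    intro a ha b hb w h1 h2
    by_contra hne
    exact hdis a ha b hb hne h1 h2
  obtain ⟨Pred, hPred⟩ : ∃ Pred : T → T → Prop, ∀ u w, Pred u w ↔
      ∃ a ∈ I, ∃ k, (P a)[k]? = some u ∧ (P a)[k + 1]? = some w := ⟨_, fun _ _ => Iff.rfl⟩
  have hmem : ∀ {a : T} {k : ℕ} {w : T}, (P a)[k]? = some w → w ∈ P a := fun h =>
    List.mem_iff_getElem?.2 ⟨_, h⟩
  have hinj : ∀ a ∈ I, ∀ (i j : ℕ) (w : T), (P a)[i]? = some w → (P a)[j]? = some w → i = j := by
    intro a ha i j w h1 h2
    have hnd := (hP a ha).2.2.1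
    obtain ⟨hi, h1⟩ := List.getElem?_eq_some_iff.1 h1
    obtain ⟨hj, h2⟩ := List.getElem?_eq_some_iff.1 h2
    exact (hnd.getElem_inj_iff (hi := hi) (hj := hj)).1 (h1.trans h2.symm)
  have hhead : ∀ a ∈ I, (P a)[0]? = some a := by
    intro a ha
    rw [← List.head?_eq_getElem?]
    exact (hP a ha).1
  have hlast : ∀ a ∈ I, (P a)[(P a).length - 1]? = some (σ a) := by
    intro a ha
    rw [← List.getLast?_eq_getElem?]
    exact (hP a ha).2.1
  have hΓ : ∀ u w, Pred u w → Γ u w := by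
    intro u w h
    obtain ⟨a, ha, k, h1, h2⟩ := (hPred u w).1 h
    obtain ⟨hi, h1⟩ := List.getElem?_eq_some_iff.1 h1
    obtain ⟨hj, h2⟩ := List.getElem?_eq_some_iff.1 h2
    have h3 := List.isChain_iff_getElem.1 (hP a ha).2.2.2 k hj
    rw [h1, h2] at h3
    exact h3
  have hsucc : ∀ u w w', Pred u w → Pred u w' → w = w' := by
    intro u w w' h h'
    obtain ⟨a, ha, k, h1, h2⟩ := (hPred u w).1 h
    obtain ⟨b, hb, l, h3, h4⟩ := (hPred u w').1 h'
    obtain rfl := hsame a ha b hb u (hmem h1) (hmem h3)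
    obtain rfl := hinj a ha k l u h1 h3
    rw [h2] at h4
    exact Option.some_injective _ h4
  have hpred : ∀ u u' w, Pred u w → Pred u' w → u = u' := by
    intro u u' w h h'
    obtain ⟨a, ha, k, h1, h2⟩ := (hPred u w).1 h
    obtain ⟨b, hb, l, h3, h4⟩ := (hPred u' w).1 h'
    obtain rfl := hsame a ha b hb w (hmem h2) (hmem h4)
    have h5 := hinj a ha (k + 1) (l + 1) w h2 h4
    obtain rfl : k = l := by omega
    rw [h1] at h3
    exact Option.some_injective _ h3
  have hnI : ∀ u w, Pred u w → w ∉ I := by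
    intro u w h hw
    obtain ⟨a, ha, k, -, h2⟩ := (hPred u w).1 h
    obtain rfl := hsame a ha w hw w (hmem h2) (hmem (hhead w hw))
    have := hinj a ha _ _ a h2 (hhead a ha)
    omega
  have hnJ : ∀ u w, Pred u w → u ∉ J := by
    intro u w h hu
    obtain ⟨b, hb, rfl⟩ := hσ.surjOn hu
    obtain ⟨a, ha, k, h1, h2⟩ := (hPred _ w).1 h
    obtain rfl := hsame a ha b hb _ (hmem h1) (hmem (hlast b hb))
    have h3 := hinj a ha _ _ _ h1 (hlast a ha)
    obtain ⟨hj, -⟩ := List.getElem?_eq_some_iff.1 h2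
    omega
  have hexP : ∀ w, w ∉ I → (∃ a ∈ I, w ∈ P a) → ∃ u, Pred u w := by
    rintro w hw ⟨a, ha, hwa⟩
    obtain ⟨k, hk⟩ := List.mem_iff_getElem?.1 hwa
    obtain ⟨hk', -⟩ := List.getElem?_eq_some_iff.1 hk
    have hk0 : k ≠ 0 := by
      rintro rfl
      rw [hhead a ha] at hk
      exact hw (Option.some_injective _ hk ▸ ha)
    obtain ⟨l, rfl⟩ := Nat.exists_eq_succ_of_ne_zero hk0
    exact ⟨(P a)[l], (hPred _ w).2 ⟨a, ha, l, List.getElem?_eq_some_iff.2 ⟨by omega, rfl⟩, hk⟩⟩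
  have hexS : ∀ u, u ∉ J → (∃ a ∈ I, u ∈ P a) → ∃ w, Pred u w := by
    rintro u hu ⟨a, ha, hua⟩
    obtain ⟨k, hk⟩ := List.mem_iff_getElem?.1 hua
    obtain ⟨hk', -⟩ := List.getElem?_eq_some_iff.1 hk
    have hk0 : k ≠ (P a).length - 1 := by
      rintro rfl
      rw [hlast a ha] at hk
      exact hu (Option.some_injective _ hk ▸ hσ.mapsTo ha)
    have hk1 : k + 1 < (P a).length := by omega
    exact ⟨(P a)[k + 1], (hPred u _).2 ⟨a, ha, k, hk, List.getElem?_eq_some_iff.2 ⟨hk1, rfl⟩⟩⟩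
  have hpath : ∀ u w, Pred u w → (∃ a ∈ I, u ∈ P a) ∧ (∃ a ∈ I, w ∈ P a) := by
    intro u w h
    obtain ⟨a, ha, k, h1, h2⟩ := (hPred u w).1 h
    exact ⟨⟨a, ha, hmem h1⟩, ⟨a, ha, hmem h2⟩⟩
  have hIpath : ∀ a ∈ I, ∃ b ∈ I, a ∈ P b := fun a ha => ⟨a, ha, hmem (hhead a ha)⟩
  have hJpath : ∀ b ∈ J, ∃ a ∈ I, b ∈ P a := by
    intro b hb
    obtain ⟨a, ha, rfl⟩ := hσ.surjOn hb
    exact ⟨a, ha, hmem (hlast a ha)⟩
  obtain ⟨g, hg⟩ : ∃ g : T → T, ∀ w, (∀ u, Pred u w → g w = u) ∧ ((¬ ∃ u, Pred u w) → g w = w) := by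
    refine ⟨fun w => if h : ∃ u, Pred u w then h.choose else w, fun w => ⟨fun u hu => ?_,
      fun h => dif_neg h⟩⟩
    have h : ∃ u, Pred u w := ⟨u, hu⟩
    show (if h : ∃ u, Pred u w then h.choose else w) = u
    rw [dif_pos h]
    exact hpred _ _ _ h.choose_spec hu
  refine ⟨g, ⟨?_, ?_, ?_⟩, ?_⟩
  · intro w hw
    by_cases h : ∃ u, Pred u w
    · obtain ⟨u, hu⟩ := h
      rw [(hg w).1 u hu]
      exact hnJ u w hu
    · rw [(hg w).2 h]
      exact fun hwJ => h (hexP w hw (hJpath w hwJ))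
  · intro w hw w' hw' he
    by_cases h : ∃ u, Pred u w
    · obtain ⟨u, hu⟩ := h
      rw [(hg w).1 u hu] at he
      by_cases h' : ∃ u, Pred u w'
      · obtain ⟨u', hu'⟩ := h'
        rw [(hg w').1 u' hu'] at he
        subst he
        exact hsucc _ _ _ hu hu'
      · rw [(hg w').2 h'] at he
        subst he
        exact absurd (hexP _ hw' (hpath _ _ hu).1) h'
    · rw [(hg w).2 h] at he
      by_cases h' : ∃ u, Pred u w'
      · obtain ⟨u', hu'⟩ := h'
        rw [(hg w').1 u' hu'] at he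
        subst he
        exact absurd (hexP _ hw (hpath _ _ hu').1) h
      · rw [(hg w').2 h'] at he
        exact he
  · intro u hu
    by_cases h : ∃ a ∈ I, u ∈ P a
    · obtain ⟨w, hw⟩ := hexS u hu h
      exact ⟨w, hnI u w hw, (hg w).1 u hw⟩
    · refine ⟨u, fun huI => h (hIpath u huI), (hg u).2 ?_⟩
      rintro ⟨w, hw⟩
      exact h (hpath w u hw).2
  · intro w hw
    by_cases h : ∃ u, Pred u w
    · obtain ⟨u, hu⟩ := h
      right
      rw [(hg w).1 u hu]
      exact hΓ u w hu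
    · left
      exact ((hg w).2 h).symm

/-- A matching of the complements gives a linking. -/
theorem linked_of_matching [Finite T] {Γ : T → T → Prop} {X Y : Set T} {g : T → T}
    (hg : BijOn g Xᶜ Yᶜ) (hΓ : ∀ w ∈ Xᶜ, w = g w ∨ Γ (g w) w) : Linked Γ X Y := by
  classical
  have hs0 : ∀ z, ∃ w, z ∉ Y → w ∉ X ∧ g w = z := by
    intro z
    by_cases hz : z ∈ Y
    · exact ⟨z, fun h => absurd hz h⟩
    · obtain ⟨w, hw, hw'⟩ := hg.surjOn hz
      exact ⟨w, fun _ => ⟨hw, hw'⟩⟩
  choose s hs using hs0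
  have hsinj : ∀ z z', z ∉ Y → z' ∉ Y → s z = s z' → z = z' := by
    intro z z' hz hz' h
    rw [← (hs z hz).2, ← (hs z' hz').2, h]
  -- the iterates
  have key : ∀ (i j : ℕ) (x x' : T), x ∈ X → x' ∈ X → (∀ k < i, s^[k] x ∉ Y) →
      (∀ k < j, s^[k] x' ∉ Y) → s^[i] x = s^[j] x' → x = x' ∧ i = j := by
    intro i
    induction i with
    | zero =>
      intro j x x' hx hx' _ hj h
      rcases Nat.eq_zero_or_pos j with rfl | hj0
      · exact ⟨h, rfl⟩
      · obtain ⟨l, rfl⟩ := Nat.exists_eq_succ_of_ne_zero hj0.ne'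
        rw [Function.iterate_succ_apply'] at h
        exact absurd (show s (s^[l] x') ∈ X from h ▸ hx) (hs _ (hj l (by omega))).1
    | succ i ih =>
      intro j x x' hx hx' hi hj h
      rcases Nat.eq_zero_or_pos j with rfl | hj0
      · rw [Function.iterate_succ_apply'] at h
        exact absurd (show s (s^[i] x) ∈ X from h ▸ hx') (hs _ (hi i (by omega))).1
      · obtain ⟨l, rfl⟩ := Nat.exists_eq_succ_of_ne_zero hj0.ne'
        rw [Function.iterate_succ_apply', Function.iterate_succ_apply'] at h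
        have h1 := hsinj _ _ (hi i (by omega)) (hj l (by omega)) h
        obtain ⟨h2, h3⟩ := ih l x x' hx hx' (fun k hk => hi k (by omega))
          (fun k hk => hj k (by omega)) h1
        exact ⟨h2, by omega⟩
  have hex : ∀ x ∈ X, ∃ n, s^[n] x ∈ Y := by
    intro x hx
    by_contra hne
    push Not at hne
    refine not_injective_infinite_finite (fun n : ℕ => s^[n] x) ?_
    intro i j hij
    exact (key i j x x hx hx (fun k _ => hne k) (fun k _ => hne k) hij).2
  have hn0 : ∀ x, ∃ n, x ∈ X → s^[n] x ∈ Y ∧ ∀ k < n, s^[k] x ∉ Y := by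
    intro x
    by_cases hx : x ∈ X
    · exact ⟨Nat.find (hex x hx), fun _ => ⟨Nat.find_spec (hex x hx),
        fun k hk => Nat.find_min (hex x hx) hk⟩⟩
    · exact ⟨0, fun h => absurd h hx⟩
  choose n hn using hn0
  have hmaps : MapsTo (fun x => s^[n x] x) X Y := fun x hx => (hn x hx).1
  have hinj : InjOn (fun x => s^[n x] x) X := fun x hx x' hx' h =>
    (key _ _ x x' hx hx' (hn x hx).2 (hn x' hx').2 h).1
  refine ⟨fun x => s^[n x] x, fun x => (List.range (n x + 1)).map (fun k => s^[k] x), ?_, ?_, ?_⟩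
  · refine ⟨hmaps, hinj, ?_⟩
    have h1 : (Xᶜ).ncard = (Yᶜ).ncard := by
      rw [← hg.image_eq, hg.injOn.ncard_image]
    have h2 := ncard_add_ncard_compl X
    have h3 := ncard_add_ncard_compl Y
    have h4 : ((fun x => s^[n x] x) '' X).ncard = X.ncard := hinj.ncard_image
    have h5 : (fun x => s^[n x] x) '' X = Y :=
      eq_of_subset_of_ncard_le hmaps.image_subset (by omega) (toFinite Y)
    exact h5.symm.subset
  · intro x hx
    refine ⟨?_, ?_, ?_, ?_⟩
    · rw [List.head?_map, List.head?_range, if_neg (by omega)]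
      rfl
    · rw [List.getLast?_map, List.getLast?_range, if_neg (by omega)]
      rfl
    · refine List.Nodup.map_on ?_ List.nodup_range
      intro i hi j hj h
      rw [List.mem_range] at hi hj
      exact (key i j x x hx hx (fun k hk => (hn x hx).2 k (by omega))
        (fun k hk => (hn x hx).2 k (by omega)) h).2
    · rw [List.isChain_map, List.isChain_range_succ]
      intro m hm
      have h1 := (hn x hx).2 m hm
      have h2 := hs _ h1
      rw [Function.iterate_succ_apply']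
      rcases hΓ _ h2.1 with h3 | h3
      · exfalso
        rw [h2.2] at h3
        have h4 : s^[m + 1] x = s^[m] x := by
          rw [Function.iterate_succ_apply']
          exact h3
        have h5 := (key (m + 1) m x x hx hx (fun k hk => (hn x hx).2 k (by omega))
          (fun k hk => (hn x hx).2 k (by omega)) h4).2
        omega
      · rw [h2.2] at h3
        exact h3
  · intro x hx x' hx' hne w h1 h2
    rw [List.mem_map] at h1 h2
    obtain ⟨i, hi, rfl⟩ := h1
    obtain ⟨j, hj, h⟩ := h2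
    rw [List.mem_range] at hi hj
    exact hne (key i j x x' hx hx' (fun k hk => (hn x hx).2 k (by omega))
      (fun k hk => (hn x' hx').2 k (by omega)) h.symm).1

end Pool.Agent.Helper53K9.MK
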