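import Pool.Agent.Helper53K9.MK.Link

/-!
# The class of the matroids without minors isomorphic to `M(K₄)` is complete
-/

set_option autoImplicit false

open Set Matroid

namespace Pool.Agent.Helper53K9.MK

variable {T : Type}

theorem Linked.subset {Γ : T → T → Prop} {X Y I : Set T} (h : Linked Γ X Y) (hI : I ⊆ X) :
    ∃ J ⊆ Y, Linked Γ I J := by
  obtain ⟨σ, P, hσ, hP, hdis⟩ := h
  refine ⟨σ '' I, ?_, σ, P, (hσ.injOn.mono hI).bijOn_image, fun a ha => hP a (hI ha),
    fun a ha b hb => hdis a (hI ha) b (hI hb)⟩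
  rw [← hσ.image_eq]
  exact image_mono hI

/-- The matroid on the set of all vertices that is induced by a directed graph. -/
theorem exists_induced [Finite T] (Γ : T → T → Prop) (M₀ : Matroid T) :
    ∃ N : Matroid T, N.E = univ ∧
      (∀ I : Set T, N.Indep I ↔ ∃ J, M₀.Indep J ∧ Linked Γ I J) ∧ (HasK4 N → HasK4 M₀) := by
  classical
  obtain ⟨M₁, hM₁⟩ : ∃ M₁, M₁ = M₀ ↾ univ := ⟨_, rfl⟩
  have hE₁ : M₁.E = univ := by rw [hM₁]; rfl
  have hind₁ : ∀ I, M₁.Indep I ↔ M₀.Indep I := by
    intro I
    rw [hM₁, restrict_indep_iff, and_iff_left (subset_univ I)]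
  obtain ⟨B, hBE, hB, hBK⟩ := exists_bip' M₁✶ (fun v w => v = w ∨ Γ w v)
  -- independent sets of the dual are independent in `B`
  have hle : ∀ I, M₁✶.Indep I → B.Indep I := by
    intro I hI
    rw [hB]
    exact ⟨id, injOn_id _, fun v _ => Or.inl rfl, by simpa using hI⟩
  have hbase : ∀ (W : Set T) (f : T → T), B.IsBase W → InjOn f W → M₁✶.Indep (f '' W) →
      M₁✶.IsBase (f '' W) := by
    intro W f hW hf hfW
    obtain ⟨Z, hZ⟩ := M₁✶.exists_isBase
    obtain ⟨W', hW', hWW'⟩ := (hle Z hZ.indep).exists_isBase_superset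
    have h1 : Z.ncard ≤ W.ncard := by
      rw [hW.ncard_eq_ncard_of_isBase hW']
      exact ncard_le_ncard hWW' (toFinite _)
    obtain ⟨Z', hZ', hWZ'⟩ := hfW.exists_isBase_superset
    have h2 : Z'.ncard = Z.ncard := hZ'.ncard_eq_ncard_of_isBase hZ
    have h3 : (f '' W).ncard = W.ncard := hf.ncard_image
    have h4 : f '' W = Z' := eq_of_subset_of_ncard_le hWZ' (by omega) (toFinite _)
    rw [h4]
    exact hZ'
  have hbase' : ∀ W : Set T, B.Indep W → (∃ Z, M₁✶.IsBase Z ∧ Z.ncard = W.ncard) →
      B.IsBase W := by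
    rintro W hW ⟨Z, hZ, hc⟩
    obtain ⟨W', hW', hWW'⟩ := hW.exists_isBase_superset
    obtain ⟨f, hf, -, hfW⟩ := (hB W').1 hW'.indep
    obtain ⟨Z', hZ', hWZ'⟩ := hfW.exists_isBase_superset
    have h2 : Z'.ncard = Z.ncard := hZ'.ncard_eq_ncard_of_isBase hZ
    have h3 : (f '' W').ncard = W'.ncard := hf.ncard_image
    have h4 : (f '' W').ncard ≤ Z'.ncard := ncard_le_ncard hWZ' (toFinite _)
    have h5 : W = W' := eq_of_subset_of_ncard_le hWW' (by omega) (toFinite _)
    rw [h5]
    exact hW'
  refine ⟨B✶, by rw [dual_ground, hBE], ?_, ?_⟩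
  · intro I
    rw [dual_indep_iff_exists', hBE, and_iff_right (subset_univ I)]
    constructor
    · rintro ⟨W, hW, hIW⟩
      obtain ⟨f, hf, hR, hfW⟩ := (hB W).1 hW.indep
      have h1 := hbase W f hW hf hfW
      have h2 : M₁.IsBase (f '' W)ᶜ := by
        have := h1.compl_isBase_of_dual
        rwa [hE₁, ← compl_eq_univ_sdiff] at this
      have h3 : Linked Γ Wᶜ (f '' W)ᶜ := by
        refine linked_of_matching (g := f) ?_ ?_
        · rw [compl_compl, compl_compl]
          exact hf.bijOn_image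
        · rw [compl_compl]
          exact hR
      obtain ⟨J, hJ, hIJ⟩ := h3.subset (I := I) (fun a ha haW =>
        Set.disjoint_left.1 hIW ha haW)
      exact ⟨J, (hind₁ J).1 (h2.indep.subset hJ), hIJ⟩
    · rintro ⟨J, hJ, hIJ⟩
      obtain ⟨g, hg, hgΓ⟩ := matching_of_linked hIJ
      obtain ⟨Y, hY, hJY⟩ := ((hind₁ J).2 hJ).exists_isBase_superset
      have hYd : M₁✶.IsBase Yᶜ := by
        have := hY.compl_isBase_dual
        rwa [hE₁, ← compl_eq_univ_sdiff] at this
      obtain ⟨W, hW⟩ : ∃ W, W = Iᶜ ∩ g ⁻¹' Yᶜ := ⟨_, rfl⟩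
      have hWI : W ⊆ Iᶜ := by rw [hW]; exact inter_subset_left
      have himg : g '' W = Yᶜ := by
        rw [hW, image_inter_preimage, hg.image_eq, inter_eq_right]
        exact compl_subset_compl.2 hJY
      have hinj : InjOn g W := hg.injOn.mono hWI
      have hWind : B.Indep W := by
        rw [hB]
        refine ⟨g, hinj, fun v hv => hgΓ v (hWI hv), ?_⟩
        rw [himg]
        exact hYd.indep
      refine ⟨W, hbase' W hWind ⟨Yᶜ, hYd, ?_⟩, ?_⟩
      · rw [← himg, hinj.ncard_image]
      · rw [Set.disjoint_left]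
        exact fun a ha haW => hWI haW ha
  · intro h
    have h1 := hBK (hasK4_dual h)
    have h2 := hasK4_dual h1
    rw [hM₁] at h2
    exact hasK4_restrict univ h2

/-- induction -/
theorem hasK4_induced [Finite T] {Γ : T → T → Prop} {M₀ N : Matroid T} {A : Set T}
    (hN : IsInduced Γ M₀ A N) (h : HasK4 N) : HasK4 M₀ := by
  obtain ⟨N', hE, hN', hK⟩ := exists_induced Γ M₀
  have : N = N' ↾ A := by
    refine ext_indep hN.1 ?_
    intro I hI
    rw [hN.2, restrict_indep_iff, hN', and_comm]
  rw [this] at h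
  exact hK (hasK4_restrict A h)

theorem isComplete_noK4Minor : IsComplete NoK4Minor := by
  refine ⟨?_, ?_, ?_, ?_, ?_, ?_, ?_, ?_⟩
  · intro α M h
    exact h.1
  · intro α β M N h hiso
    have := h.1
    have hN : N.Finite := by
      obtain ⟨f, hf, -⟩ := hiso
      refine ⟨?_⟩
      rw [← hf.image_eq]
      exact h.1.ground_finite.image f
    rw [noK4_iff hN]
    rw [noK4_iff h.1] at h
    exact fun hK => h (hasK4_iso hiso hK)
  · intro α M R h hR
    have := h.1
    have hfin : (M ↾ R).Finite := restrict_finite (M.ground_finite.subset hR)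
    rw [noK4_iff hfin]
    rw [noK4_iff h.1] at h
    exact fun hK => h (hasK4_restrict R hK)
  · intro α M X h _
    have := h.1
    have hfin : (M ／ X).Finite := inferInstance
    rw [noK4_iff hfin]
    rw [noK4_iff h.1] at h
    exact fun hK => h (hasK4_contract X hK)
  · intro α M h
    have := h.1
    have hfin : (M✶).Finite := inferInstance
    rw [noK4_iff hfin]
    rw [noK4_iff h.1] at h
    exact fun hK => h (hasK4_dual hK)
  · intro α β M N hM hN
    have := hM.1
    have := hN.1
    have hfin : (M.sum N).Finite := by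
      refine ⟨?_⟩
      rw [sum_ground]
      exact (M.ground_finite.image _).union (N.ground_finite.image _)
    rw [noK4_iff hfin]
    rw [noK4_iff hM.1] at hM
    rw [noK4_iff hN.1] at hN
    exact fun hK => (hasK4_sum hK).elim hM hN
  · intro α M N h hMN
    have := h.1
    have hfin : N.Finite := by
      refine ⟨?_⟩
      rw [hMN.1]
      exact M.ground_finite
    rw [noK4_iff hfin]
    rw [noK4_iff h.1] at h
    exact fun hK => h (hasK4_truncation hMN hK)
  · intro T _ Γ M₀ A N h hN
    have hfin : N.Finite := inferInstance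
    rw [noK4_iff hfin]
    rw [noK4_iff h.1] at h
    exact fun hK => h (hasK4_induced hN hK)

/-- `𝒦` is the largest complete class that contains no matroid isomorphic to `M(K₄)`. -/
theorem main : IsLargestCompleteAvoiding (fun _ M => IsMK4 M) NoK4Minor := by
  refine ⟨isComplete_noK4Minor, ?_, ?_⟩
  · intro α M h
    exact h.2 M IsMinor.refl
  · intro C hC hav α M hM
    refine ⟨hC.finite α M hM, ?_⟩
    intro N hN hK
    obtain ⟨X, D, rfl⟩ := hN
    refine hav _ _ ?_ hK
    have h1 : M ／ X = M ／ (X ∩ M.E) := (contract_inter_ground_eq M X).symm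
    rw [h1]
    have h2 := hC.contract α M (X ∩ M.E) hM inter_subset_right
    rw [delete_eq_restrict]
    exact hC.restrict α _ _ h2 sdiff_subset

/-- The matroid `M(K₄)` exists. -/
theorem exists_mk4 : ∃ M : Matroid (Fin 6), IsMK4 M := by
  classical
  let M : Matroid (Fin 6) := (IndepMatroid.ofFinset (univ : Set (Fin 6))
    (fun S => k4 S = S.card) (by decide) (by
      have : ∀ J I : Finset (Fin 6), k4 J = J.card → I ⊆ J → k4 I = I.card := by decide +kernel
      exact fun I J hJ hIJ => this J I hJ hIJ) (by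
      have : ∀ I J : Finset (Fin 6), k4 I = I.card → k4 J = J.card → I.card < J.card →
        ∃ e ∈ J, e ∉ I ∧ k4 (insert e I) = (insert e I).card := by decide +kernel
      exact fun I J hI hJ h => this I J hI hJ h) (by simp)).matroid
  refine ⟨M, psi, ⟨?_, psi_injective.injOn, ?_⟩, ?_⟩
  · intro i _
    exact psi_notDiag i
  · intro e he
    obtain ⟨i, hi⟩ := psi_surj e he
    exact ⟨i, mem_univ i, hi⟩
  · intro I _
    obtain ⟨S, rfl⟩ : ∃ S : Finset (Fin 6), (S : Set (Fin 6)) = I :=
      ⟨I.toFinite.toFinset, I.toFinite.coe_toFinset⟩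
    rw [acyclic_iff]
    show (IndepMatroid.matroid _).Indep _ ↔ _
    rw [IndepMatroid.matroid_indep_iff, IndepMatroid.ofFinset_indep]

end Pool.Agent.Helper53K9.MK
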