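import Pool.Agent.Helper53K9.MK.Bridge

/-!
# Operations on matroids and minors isomorphic to `M(K₄)`
-/

set_option autoImplicit false

open Set Matroid

namespace Pool.Agent.Helper53K9.MK

variable {α β : Type}

theorem rk_eq_of_eRk {M : Matroid α} {N : Matroid β} [M.RankFinite] [N.RankFinite] {A : Set α}
    {B : Set β} (h : M.eRk A = N.eRk B) : rk M A = rk N B := by
  unfold rk
  rw [h]

theorem Config.notMem {r : Set α → ℕ} {C : Set α} {x : Fin 6 → α} (hx : Config r C x)
    (p : Fin 6) : r (insert (x p) C) = r C + 1 := by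
  have := hx {p}
  rw [Finset.coe_singleton, image_singleton, union_singleton] at this
  rw [this]
  have e : ∀ p : Fin 6, k4 {p} = 1 := by decide
  rw [e p]

theorem config_mem_of {M : Matroid α} [M.RankFinite] {C : Set α} {x : Fin 6 → α}
    (hx : Config (rk M) C x) (p : Fin 6) : x p ∈ M.E := by
  by_contra hp
  have h1 := eRk_insert_of_notMem_ground (M := M) C hp
  rw [← coe_rk, ← coe_rk] at h1
  have h2 : rk M (insert (x p) C) = rk M C := by exact_mod_cast h1
  have := hx.notMem p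
  omega

/-- restriction (to any set) -/
theorem hasK4_restrict {M : Matroid α} [M.RankFinite] (R : Set α) (h : HasK4 (M ↾ R)) :
    HasK4 M := by
  obtain ⟨C, x, hx⟩ := h
  have hR : ∀ A : Set α, rk (M ↾ R) A = rk M (A ∩ R) := fun A =>
    rk_eq_of_eRk (restrict_eRk_eq' M R A)
  have hxR : ∀ p, x p ∈ R := fun p => config_mem_of hx p
  refine ⟨C ∩ R, x, fun S => ?_⟩
  have h1 := hx S
  rw [hR, hR] at h1
  rw [← h1]
  congr 1
  rw [union_inter_distrib_right]
  congr 1
  rw [eq_comm, inter_eq_left]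
  rintro _ ⟨i, -, rfl⟩
  exact hxR i

/-- contraction -/
theorem hasK4_contract {M : Matroid α} [M.Finite] (X : Set α) (h : HasK4 (M ／ X)) :
    HasK4 M := by
  obtain ⟨N, hN, hK⟩ := minor_of_hasK4 h
  refine hasK4_of_minor (hN.trans ?_) hK
  exact ⟨X, ∅, by simp⟩

/-- The map induced by complementation. -/
def kap : Fin 6 → Fin 6 := ![5, 4, 3, 2, 1, 0]

theorem k4_kap : ∀ U : Finset (Fin 6),
    k4 (U.image kap) + 3 = k4 Uᶜ + U.card := by decide +kernel

theorem rk_dual {M : Matroid α} [M.Finite] {X : Set α} (hX : X ⊆ M.E) :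
    rk M✶ X + rk M M.E = rk M (M.E \ X) + X.ncard := by
  have h := M.eRk_dual_add_eRank X hX
  rw [← eRk_ground, ← coe_rk, ← coe_rk, ← coe_rk,
    ← (M.ground_finite.subset hX).cast_ncard_eq] at h
  exact_mod_cast h

/-- duality -/
theorem hasK4_dual {M : Matroid α} [M.Finite] (h : HasK4 M✶) : HasK4 M := by
  obtain ⟨C₀, x, hx₀⟩ := h
  -- replace `C₀` by a subset of the ground set
  obtain ⟨C, hCE, hx⟩ : ∃ C : Set α, C ⊆ M.E ∧ Config (rk M✶) C x := by
    refine ⟨C₀ ∩ M.E, inter_subset_right, fun S => ?_⟩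
    have h1 := hx₀ S
    have h2 : rk M✶ (C₀ ∪ x '' S) = rk M✶ (C₀ ∩ M.E ∪ x '' S) := by
      refine rk_eq_of_eRk ?_
      rw [← eRk_inter_ground, ← eRk_inter_ground (X := C₀ ∩ M.E ∪ x '' S)]
      congr 1
      rw [dual_ground]
      ext a
      constructor
      · rintro ⟨h | h, h'⟩
        · exact ⟨Or.inl ⟨h, h'⟩, h'⟩
        · exact ⟨Or.inr h, h'⟩
      · rintro ⟨h | h, h'⟩
        · exact ⟨Or.inl h.1, h'⟩
        · exact ⟨Or.inr h, h'⟩
    have h3 : rk M✶ C₀ = rk M✶ (C₀ ∩ M.E) := by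
      refine rk_eq_of_eRk ?_
      rw [← eRk_inter_ground, dual_ground]
    rw [← h2, ← h3]
    exact h1
  have hxE : ∀ p, x p ∈ M.E := fun p => config_mem_of hx p
  have hxC : ∀ p, x p ∉ C := by
    intro p hp
    have := hx.notMem p
    rw [insert_eq_of_mem hp] at this
    omega
  have hxinj : Function.Injective x := by
    intro i j hij
    by_contra hne
    have h1 := hx {i, j}
    have h2 := hx {i}
    have h3 : x '' (({i, j} : Finset (Fin 6)) : Set (Fin 6)) =
        x '' (({i} : Finset (Fin 6)) : Set (Fin 6)) := by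
      rw [Finset.coe_insert, image_insert_eq, Finset.coe_singleton, image_singleton,
        Finset.coe_singleton, image_singleton, hij]
      simp
    rw [h3] at h1
    have e : ∀ i j : Fin 6, i ≠ j → k4 {i, j} = 2 ∧ k4 {i} = 1 := by decide
    have := e i j hne
    omega
  have hCfin : C.Finite := M.ground_finite.subset hCE
  obtain ⟨D, hD⟩ : ∃ D, D = M.E \ (C ∪ range x) := ⟨_, rfl⟩
  have hcompl : ∀ U : Finset (Fin 6), M.E \ (C ∪ x '' ((Uᶜ : Finset (Fin 6)) : Set (Fin 6))) =
      D ∪ x '' U := by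
    intro U
    rw [hD]
    ext a
    constructor
    · rintro ⟨h1, h2⟩
      by_cases h3 : a ∈ range x
      · obtain ⟨i, rfl⟩ := h3
        right
        refine ⟨i, ?_, rfl⟩
        by_contra h4
        refine h2 (Or.inr ⟨i, ?_, rfl⟩)
        rw [Finset.coe_compl]
        exact h4
      · exact Or.inl ⟨h1, fun h => h.elim (fun h => h2 (Or.inl h)) h3⟩
    · rintro (⟨h1, h2⟩ | ⟨i, hi, rfl⟩)
      · refine ⟨h1, ?_⟩
        rintro (h | ⟨i, -, rfl⟩)
        · exact h2 (Or.inl h)
        · exact h2 (Or.inr ⟨i, rfl⟩)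
      · refine ⟨hxE i, ?_⟩
        rintro (h | ⟨j, hj, h⟩)
        · exact hxC i h
        · have := hxinj h
          subst this
          rw [Finset.coe_compl] at hj
          exact hj hi
  have hsub : ∀ S : Finset (Fin 6), C ∪ x '' S ⊆ M.E := by
    rintro S a (h | ⟨i, -, rfl⟩)
    · exact hCE h
    · exact hxE i
  have hcard : ∀ S : Finset (Fin 6), (C ∪ x '' (S : Set (Fin 6))).ncard = C.ncard + S.card := by
    intro S
    rw [ncard_union_eq _ hCfin (S.finite_toSet.image x), ncard_image_of_injective _ hxinj,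
      ncard_coe_finset]
    rw [Set.disjoint_left]
    rintro _ haC ⟨i, -, rfl⟩
    exact hxC i haC
  have main : ∀ U : Finset (Fin 6), rk M (D ∪ x '' U) + C.ncard + Uᶜ.card =
      rk M✶ C + k4 Uᶜ + rk M M.E := by
    intro U
    have h1 := rk_dual (hsub Uᶜ)
    rw [hcompl U, hcard, hx] at h1
    omega
  refine ⟨D, x ∘ kap, fun S => ?_⟩
  have e1 : (x ∘ kap) '' S = x '' ((S.image kap : Finset (Fin 6)) : Set (Fin 6)) := by
    rw [Finset.coe_image, image_comp]
  rw [e1]
  have h1 := main (S.image kap)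
  have h2 := main ∅
  rw [Finset.coe_empty, image_empty, union_empty] at h2
  have h3 := k4_kap (S.image kap)
  have h4 : (S.image kap).image kap = S := by
    rw [Finset.image_image]
    have : kap ∘ kap = id := by decide
    rw [this, Finset.image_id]
  rw [h4] at h3
  have h5 : k4 (∅ : Finset (Fin 6))ᶜ = 3 := by decide
  have h6 : (∅ : Finset (Fin 6))ᶜ.card = 6 := by decide
  have h7 : (S.image kap)ᶜ.card + (S.image kap).card = 6 := by
    have := Finset.card_compl_add_card (S.image kap)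
    rw [Fintype.card_fin] at this
    exact this
  omega

/-- A configuration can be chosen in the ground set. -/
theorem HasK4.normal {M : Matroid α} [M.Finite] (h : HasK4 M) :
    ∃ (C : Set α) (x : Fin 6 → α), Config (rk M) C x ∧ C ⊆ M.E ∧ ∀ p, x p ∈ M.E := by
  obtain ⟨C₀, x, hx₀⟩ := h
  refine ⟨C₀ ∩ M.E, x, fun S => ?_, inter_subset_right, fun p => config_mem_of hx₀ p⟩
  have h1 := hx₀ S
  have h2 : rk M (C₀ ∪ x '' S) = rk M (C₀ ∩ M.E ∪ x '' S) := by
    refine rk_eq_of_eRk ?_
    rw [← eRk_inter_ground, ← eRk_inter_ground (X := C₀ ∩ M.E ∪ x '' S)]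
    congr 1
    ext a
    constructor
    · rintro ⟨h | h, h'⟩
      · exact ⟨Or.inl ⟨h, h'⟩, h'⟩
      · exact ⟨Or.inr h, h'⟩
    · rintro ⟨h | h, h'⟩
      · exact ⟨Or.inl h.1, h'⟩
      · exact ⟨Or.inr h, h'⟩
  have h3 : rk M C₀ = rk M (C₀ ∩ M.E) := by
    refine rk_eq_of_eRk ?_
    rw [← eRk_inter_ground]
  rw [← h2, ← h3]
  exact h1

/-- isomorphism -/
theorem hasK4_iso {M : Matroid α} {N : Matroid β} [M.Finite] [N.Finite] (hiso : Iso M N)
    (h : HasK4 N) : HasK4 M := by
  obtain ⟨f, hf, hfi⟩ := hiso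
  have hN : N = M.map f hf.injOn := by
    refine ext_indep ?_ ?_
    · rw [map_ground, hf.image_eq]
    · intro I hI
      rw [map_indep_iff]
      constructor
      · intro hI'
        refine ⟨M.E ∩ f ⁻¹' I, ?_, ?_⟩
        · rw [hfi _ inter_subset_left]
          convert hI' using 1
          rw [image_inter_preimage, hf.image_eq, inter_eq_right]
          exact hI
        · rw [image_inter_preimage, hf.image_eq, eq_comm, inter_eq_right]
          exact hI
      · rintro ⟨I₀, hI₀, rfl⟩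
        exact (hfi I₀ hI₀.subset_ground).1 hI₀
  obtain ⟨C, x, hx, hCE, hxE⟩ := h.normal
  have hy : ∀ p, ∃ a ∈ M.E, f a = x p := fun p => hf.surjOn (hxE p)
  choose y hyE hyx using hy
  have e0 : C = f '' (M.E ∩ f ⁻¹' C) := by
    rw [image_inter_preimage, hf.image_eq, eq_comm, inter_eq_right]
    exact hCE
  have e1 : ∀ S : Finset (Fin 6), C ∪ x '' S = f '' (M.E ∩ f ⁻¹' C ∪ y '' S) := by
    intro S
    rw [image_union, ← e0, ← image_comp]
    congr 1
    exact image_congr fun i _ => (hyx i).symm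
  refine ⟨M.E ∩ f ⁻¹' C, y, fun S => ?_⟩
  have h1 := hx S
  have h2 : rk N (C ∪ x '' S) = rk M (M.E ∩ f ⁻¹' C ∪ y '' S) := by
    refine rk_eq_of_eRk ?_
    rw [e1, hN]
    refine eRk_map M hf.injOn ?_
    rintro a (ha | ⟨i, -, rfl⟩)
    · exact ha.1
    · exact hyE i
  have h3 : rk N C = rk M (M.E ∩ f ⁻¹' C) := by
    refine rk_eq_of_eRk ?_
    conv_lhs => rw [e0, hN]
    exact eRk_map M hf.injOn inter_subset_left
  rw [← h2, ← h3]
  exact h1

/-- The rank function of a direct sum. -/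
theorem rk_sum (M : Matroid α) (N : Matroid β) [M.Finite] [N.Finite] [(M.sum N).Finite]
    (X : Set (α ⊕ β)) :
    rk (M.sum N) X = rk M (Sum.inl ⁻¹' X) + rk N (Sum.inr ⁻¹' X) := by
  obtain ⟨I, hI⟩ := M.exists_isBasis' (Sum.inl ⁻¹' X)
  obtain ⟨J, hJ⟩ := N.exists_isBasis' (Sum.inr ⁻¹' X)
  have hK : (M.sum N).IsBasis (Sum.inl '' I ∪ Sum.inr '' J) (X ∩ (M.sum N).E) := by
    rw [sum_isBasis_iff]
    have e1 : Sum.inl ⁻¹' (Sum.inl '' I ∪ Sum.inr '' J : Set (α ⊕ β)) = I := by
      ext a; simp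
    have e2 : Sum.inr ⁻¹' (Sum.inl '' I ∪ Sum.inr '' J : Set (α ⊕ β)) = J := by
      ext a; simp
    have e3 : Sum.inl ⁻¹' (X ∩ (M.sum N).E) = (Sum.inl ⁻¹' X) ∩ M.E := by
      ext a; simp
    have e4 : Sum.inr ⁻¹' (X ∩ (M.sum N).E) = (Sum.inr ⁻¹' X) ∩ N.E := by
      ext a; simp
    rw [e1, e2, e3, e4]
    exact ⟨hI.isBasis_inter_ground, hJ.isBasis_inter_ground⟩
  have h1 : rk (M.sum N) X = (Sum.inl '' I ∪ Sum.inr '' J : Set (α ⊕ β)).ncard := by
    rw [← rk_basis hK.isBasis']
    refine rk_eq_of_eRk ?_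
    rw [eRk_inter_ground]
  rw [h1, rk_basis hI, rk_basis hJ,
    ncard_union_eq _ (hI.indep.finite.image _) (hJ.indep.finite.image _),
    ncard_image_of_injective _ Sum.inl_injective, ncard_image_of_injective _ Sum.inr_injective]
  rw [Set.disjoint_left]
  rintro _ ⟨a, -, rfl⟩ ⟨b, -, h⟩
  cases h

theorem sum_aux : ∀ P : Finset (Fin 6), k4 P + k4 Pᶜ = 3 → P = ∅ ∨ P = Finset.univ := by
  decide +kernel

/-- direct sums -/
theorem hasK4_sum {M : Matroid α} {N : Matroid β} [M.Finite] [N.Finite] [(M.sum N).Finite]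
    (h : HasK4 (M.sum N)) : HasK4 M ∨ HasK4 N := by
  classical
  obtain ⟨C, x, hx⟩ := h
  obtain ⟨P, hP⟩ : ∃ P : Finset (Fin 6), ∀ i, i ∈ P ↔ (x i).isLeft = true :=
    ⟨Finset.univ.filter fun i => (x i).isLeft = true, by simp⟩
  -- the preimages
  have hl : ∀ S : Finset (Fin 6), Disjoint S P →
      (Sum.inl ⁻¹' (C ∪ x '' S) : Set α) = Sum.inl ⁻¹' C := by
    intro S hS
    ext a
    constructor
    · rintro (ha | ⟨i, hi, hia⟩)
      · exact ha
      · exfalso
        have h1 : i ∈ P := by rw [hP, hia]; rfl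
        exact Finset.disjoint_left.1 hS (by exact_mod_cast hi) h1
    · intro ha
      exact Or.inl ha
  have hr : ∀ S : Finset (Fin 6), S ⊆ P →
      (Sum.inr ⁻¹' (C ∪ x '' S) : Set β) = Sum.inr ⁻¹' C := by
    intro S hS
    ext a
    constructor
    · rintro (ha | ⟨i, hi, hia⟩)
      · exact ha
      · exfalso
        have h1 : i ∈ P := hS (by exact_mod_cast hi)
        rw [hP, hia] at h1
        cases h1
    · intro ha
      exact Or.inl ha
  have hu : (Sum.inl ⁻¹' (C ∪ x '' ((Finset.univ : Finset (Fin 6)) : Set (Fin 6))) : Set α) =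
      Sum.inl ⁻¹' (C ∪ x '' P) := by
    ext a
    constructor
    · rintro (ha | ⟨i, hi, hia⟩)
      · exact Or.inl ha
      · refine Or.inr ⟨i, ?_, hia⟩
        have h1 : i ∈ P := by rw [hP, hia]; rfl
        exact_mod_cast h1
    · rintro (ha | ⟨i, hi, hia⟩)
      · exact Or.inl ha
      · exact Or.inr ⟨i, by simp, hia⟩
  have hu' : (Sum.inr ⁻¹' (C ∪ x '' ((Finset.univ : Finset (Fin 6)) : Set (Fin 6))) : Set β) =
      Sum.inr ⁻¹' (C ∪ x '' ((Pᶜ : Finset (Fin 6)) : Set (Fin 6))) := by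
    ext a
    constructor
    · rintro (ha | ⟨i, hi, hia⟩)
      · exact Or.inl ha
      · refine Or.inr ⟨i, ?_, hia⟩
        have h1 : i ∉ P := by
          rw [hP, hia]
          simp
        rw [Finset.mem_coe, Finset.mem_compl]
        exact h1
    · rintro (ha | ⟨i, hi, hia⟩)
      · exact Or.inl ha
      · exact Or.inr ⟨i, by simp, hia⟩
  have h1 := hx P
  have h2 := hx Pᶜ
  have h3 := hx Finset.univ
  rw [rk_sum, rk_sum, hr P subset_rfl] at h1
  rw [rk_sum, rk_sum, hl Pᶜ (disjoint_compl_left)] at h2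
  rw [rk_sum, rk_sum, hu, hu'] at h3
  have e : k4 Finset.univ = 3 := by decide
  rw [e] at h3
  rcases sum_aux P (by omega) with hP0 | hP0
  · -- all points are on the right
    right
    have hy : ∀ i, ∃ b, x i = Sum.inr b := by
      intro i
      have h4 : i ∉ P := by rw [hP0]; simp
      rw [hP] at h4
      rcases hxi : x i with a | b
      · rw [hxi] at h4
        simp at h4
      · exact ⟨b, rfl⟩
    choose y hy using hy
    refine ⟨Sum.inr ⁻¹' C, y, fun S => ?_⟩
    have h5 := hx S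
    rw [rk_sum, rk_sum, hl S (by rw [hP0]; exact Finset.disjoint_empty_right _)] at h5
    have h6 : (Sum.inr ⁻¹' (C ∪ x '' S) : Set β) = Sum.inr ⁻¹' C ∪ y '' S := by
      ext b
      constructor
      · rintro (hb | ⟨i, hi, hib⟩)
        · exact Or.inl hb
        · rw [hy] at hib
          exact Or.inr ⟨i, hi, Sum.inr_injective hib⟩
      · rintro (hb | ⟨i, hi, rfl⟩)
        · exact Or.inl hb
        · exact Or.inr ⟨i, hi, hy i⟩
    rw [h6] at h5
    omega
  · left
    have hy : ∀ i, ∃ b, x i = Sum.inl b := by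
      intro i
      have h4 : i ∈ P := by rw [hP0]; simp
      rw [hP] at h4
      rcases hxi : x i with a | b
      · exact ⟨a, rfl⟩
      · rw [hxi] at h4
        simp at h4
    choose y hy using hy
    refine ⟨Sum.inl ⁻¹' C, y, fun S => ?_⟩
    have h5 := hx S
    rw [rk_sum, rk_sum, hr S (by rw [hP0]; exact Finset.subset_univ _)] at h5
    have h6 : (Sum.inl ⁻¹' (C ∪ x '' S) : Set α) = Sum.inl ⁻¹' C ∪ y '' S := by
      ext b
      constructor
      · rintro (hb | ⟨i, hi, hib⟩)
        · exact Or.inl hb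
        · rw [hy] at hib
          exact Or.inr ⟨i, hi, Sum.inl_injective hib⟩
      · rintro (hb | ⟨i, hi, rfl⟩)
        · exact Or.inl hb
        · exact Or.inr ⟨i, hi, hy i⟩
    rw [h6] at h5
    omega

/-- truncation -/
theorem hasK4_truncation {M N : Matroid α} [M.Finite] [N.Finite] (hMN : IsTruncation M N)
    (h : HasK4 N) : HasK4 M := by
  obtain ⟨-, k, hk⟩ := hMN
  have hr : ∀ A : Set α, rk N A = min (rk M A) k := by
    intro A
    have h1 : N.eRk A = min (M.eRk A) k := by
      apply le_antisymm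
      · rw [eRk_le_iff]
        intro I hI hI'
        rw [hk] at hI'
        exact le_min (hI'.1.encard_le_eRk_of_subset hI) hI'.2
      · obtain ⟨I, hIA, hI, hIc⟩ := (le_eRk_iff (M := M) (X := A)).1 (min_le_left (M.eRk A) (k : ℕ∞))
        rw [← hIc]
        have : N.Indep I := (hk I).2 ⟨hI, hIc ▸ min_le_right _ _⟩
        exact this.encard_le_eRk_of_subset hIA
    rw [← coe_rk, ← coe_rk] at h1
    rcases le_total (rk M A) k with h | h
    · rw [min_eq_left (by exact_mod_cast h)] at h1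
      rw [min_eq_left h]
      exact_mod_cast h1
    · rw [min_eq_right (by exact_mod_cast h)] at h1
      rw [min_eq_right h]
      exact_mod_cast h1
  obtain ⟨C, x, hx⟩ := h
  have hT0 := hx {0, 1, 3}
  have e0 : k4 {0, 1, 3} = 3 := by decide
  rw [e0, hr, hr] at hT0
  have hc : rk M C + 3 ≤ k := by
    have := min_le_right (rk M (C ∪ x '' (({0, 1, 3} : Finset (Fin 6)) : Set (Fin 6)))) k
    rcases le_total (rk M C) k with h | h
    · rw [min_eq_left h] at hT0
      omega
    · rw [min_eq_right h] at hT0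
      omega
  have hline : ∀ L : Finset (Fin 6), k4 L = 2 → rk M (C ∪ x '' L) ≤ rk M C + 2 := by
    intro L hL
    have h1 := hx L
    rw [hL, hr, hr, min_eq_left (show rk M C ≤ k by omega)] at h1
    rcases le_total (rk M (C ∪ x '' L)) k with h | h
    · rw [min_eq_left h] at h1
      omega
    · rw [min_eq_right h] at h1
      omega
  refine ⟨C, x, config_of (rankFn_rk M) (hline _ (by decide)) (hline _ (by decide))
    (hline _ (by decide)) (hline _ (by decide)) ?_⟩
  intro T hT
  have h1 := hx T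
  rw [k4_nl hT, hr, hr, min_eq_left (show rk M C ≤ k by omega)] at h1
  have := min_le_left (rk M (C ∪ x '' T)) k
  omega

end Pool.Agent.Helper53K9.MK
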