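import Pool.Agent.Helper53K9.MK.Ops

/-!
# Principal extensions
-/

set_option autoImplicit false

open Set Matroid

namespace Pool.Agent.Helper53K9.MK

variable {α : Type}

/-- Independence in the principal extension of `M` by `e` on `F`. -/
def PInd (M : Matroid α) (F : Set α) (e : α) (I : Set α) : Prop :=
  (e ∉ I ∧ M.Indep I) ∨ (e ∈ I ∧ ∃ f ∈ F, f ∉ I ∧ M.Indep (insert f (I \ {e})))

theorem pInd_insert {M : Matroid α} {F : Set α} {e : α} (hF : e ∉ F) {I : Set α} (he : e ∉ I) :
    PInd M F e (insert e I) ↔ ∃ f ∈ F, f ∉ I ∧ M.Indep (insert f I) := by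
  unfold PInd
  have h1 : insert e I \ {e} = I := by
    ext a
    constructor
    · rintro ⟨h | h, h'⟩
      · exact absurd h h'
      · exact h
    · intro h
      refine ⟨Or.inr h, ?_⟩
      rintro rfl
      exact he h
  constructor
  · rintro (⟨h, -⟩ | ⟨-, f, hf, hfI, h⟩)
    · exact absurd (mem_insert e I) h
    · rw [h1] at h
      exact ⟨f, hf, fun h' => hfI (Or.inr h'), h⟩
  · rintro ⟨f, hf, hfI, h⟩
    refine Or.inr ⟨mem_insert e I, f, hf, ?_, ?_⟩
    · rintro (h' | h')
      · exact hF (h' ▸ hf)
      · exact hfI h'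
    · rw [h1]
      exact h

theorem pInd_of_notMem {M : Matroid α} {F : Set α} {e : α} {I : Set α} (he : e ∉ I) :
    PInd M F e I ↔ M.Indep I := by
  unfold PInd
  constructor
  · rintro (⟨-, h⟩ | ⟨h, -⟩)
    · exact h
    · exact absurd h he
  · intro h
    exact Or.inl ⟨he, h⟩

theorem exists_eq_insert {e : α} {I : Set α} (he : e ∈ I) : ∃ J, e ∉ J ∧ I = insert e J :=
  ⟨I \ {e}, by simp, by rw [insert_sdiff_self_of_mem he]⟩

theorem pInd_subset {M : Matroid α} {F : Set α} {e : α} (hF : e ∉ F) {I J : Set α}
    (hJ : PInd M F e J) (hIJ : I ⊆ J) : PInd M F e I := by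
  by_cases he : e ∈ J
  · obtain ⟨J', heJ, rfl⟩ := exists_eq_insert he
    rw [pInd_insert hF heJ] at hJ
    obtain ⟨f, hf, hfJ, h⟩ := hJ
    by_cases he' : e ∈ I
    · obtain ⟨I', heI, rfl⟩ := exists_eq_insert he'
      have h1 : I' ⊆ J' := by
        intro a ha
        rcases hIJ (Or.inr ha) with h2 | h2
        · exact absurd (h2 ▸ ha) heI
        · exact h2
      rw [pInd_insert hF heI]
      exact ⟨f, hf, fun h' => hfJ (h1 h'), h.subset (insert_subset_insert h1)⟩
    · rw [pInd_of_notMem he']
      refine h.subset ?_
      intro a ha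
      rcases hIJ ha with h2 | h2
      · exact absurd (h2 ▸ ha) he'
      · exact Or.inr h2
  · have he' : e ∉ I := fun h => he (hIJ h)
    rw [pInd_of_notMem he] at hJ
    rw [pInd_of_notMem he']
    exact hJ.subset hIJ

theorem aug' {M : Matroid α} [M.Finite] {I J : Set α} (hI : M.Indep I) (hJ : M.Indep J)
    (h : I.ncard < J.ncard) : ∃ a ∈ J, a ∉ I ∧ M.Indep (insert a I) := by
  obtain ⟨a, ha, h1⟩ := hI.augment hJ (by
    rw [← hI.finite.cast_ncard_eq, ← hJ.finite.cast_ncard_eq]
    exact_mod_cast h)
  exact ⟨a, ha.1, ha.2, h1⟩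

theorem pInd_aug {M : Matroid α} [M.Finite] {F : Set α} {e : α} (hF : e ∉ F)
    {I J : Set α} (hI : PInd M F e I) (hJ : PInd M F e J)
    (hIJ : I.ncard < J.ncard) : ∃ a ∈ J, a ∉ I ∧ PInd M F e (insert a I) := by
  by_cases heI : e ∈ I
  · obtain ⟨I', heI', rfl⟩ := exists_eq_insert heI
    rw [pInd_insert hF heI'] at hI
    obtain ⟨f, hf, hfI, hI⟩ := hI
    have finI : I'.Finite := hI.finite.subset (subset_insert _ _)
    rw [ncard_insert_of_notMem heI' finI] at hIJ
    by_cases heJ : e ∈ J
    · obtain ⟨J', heJ', rfl⟩ := exists_eq_insert heJ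
      rw [pInd_insert hF heJ'] at hJ
      obtain ⟨g, hg, hgJ, hJ⟩ := hJ
      have finJ : J'.Finite := hJ.finite.subset (subset_insert _ _)
      rw [ncard_insert_of_notMem heJ' finJ] at hIJ
      obtain ⟨a, haJ, haI, ha⟩ := aug' hI hJ (by
        rw [ncard_insert_of_notMem hfI finI, ncard_insert_of_notMem hgJ finJ]
        exact hIJ)
      rcases haJ with rfl | haJ
      · -- `a = g`
        obtain ⟨b, hbJ, hbI, hb⟩ := aug' (hI.subset (subset_insert f I'))
          (hJ.subset (subset_insert a J')) (by omega)
        have hbe : b ≠ e := fun h => heJ' (h ▸ hbJ)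
        have hfa : f ≠ a := fun h => haI (Or.inl h.symm)
        have haI' : a ∉ I' := fun h => haI (Or.inr h)
        obtain ⟨c, hc, hcI, hc'⟩ := aug' hb ha (by
          rw [ncard_insert_of_notMem hbI finI, ncard_insert_of_notMem haI (finI.insert f),
            ncard_insert_of_notMem hfI finI]
          omega)
        have hcF : c ∈ F := by
          rcases hc with rfl | rfl | hc
          · exact hg
          · exact hf
          · exact absurd (Or.inr hc) hcI
        refine ⟨b, Or.inr hbJ, ?_, ?_⟩
        · rintro (h | h)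
          · exact hbe h
          · exact hbI h
        · rw [insert_comm, pInd_insert hF]
          · exact ⟨c, hcF, hcI, hc'⟩
          · rintro (h | h)
            · exact hbe h.symm
            · exact heI' h
      · have hae : a ≠ e := fun h => heJ' (h ▸ haJ)
        refine ⟨a, Or.inr haJ, ?_, ?_⟩
        · rintro (h | h)
          · exact hae h
          · exact haI (Or.inr h)
        · rw [insert_comm, pInd_insert hF]
          · refine ⟨f, hf, ?_, ?_⟩
            · rintro (h | h)
              · exact haI (Or.inl h.symm)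
              · exact hfI h
            · rw [insert_comm]
              exact ha
          · rintro (h | h)
            · exact hae h.symm
            · exact heI' h
    · rw [pInd_of_notMem heJ] at hJ
      obtain ⟨a, haJ, haI, ha⟩ := aug' hI hJ (by
        rw [ncard_insert_of_notMem hfI finI]
        exact hIJ)
      have hae : a ≠ e := fun h => heJ (h ▸ haJ)
      refine ⟨a, haJ, ?_, ?_⟩
      · rintro (h | h)
        · exact hae h
        · exact haI (Or.inr h)
      · rw [insert_comm, pInd_insert hF]
        · refine ⟨f, hf, ?_, ?_⟩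
          · rintro (h | h)
            · exact haI (Or.inl h.symm)
            · exact hfI h
          · rw [insert_comm]
            exact ha
        · rintro (h | h)
          · exact hae h.symm
          · exact heI' h
  · rw [pInd_of_notMem heI] at hI
    by_cases heJ : e ∈ J
    · obtain ⟨J', heJ', rfl⟩ := exists_eq_insert heJ
      rw [pInd_insert hF heJ'] at hJ
      obtain ⟨g, hg, hgJ, hJ⟩ := hJ
      have finJ : J'.Finite := hJ.finite.subset (subset_insert _ _)
      rw [ncard_insert_of_notMem heJ' finJ] at hIJ
      obtain ⟨a, haJ, haI, ha⟩ := aug' hI hJ (by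
        rw [ncard_insert_of_notMem hgJ finJ]
        exact hIJ)
      rcases haJ with rfl | haJ
      · refine ⟨e, mem_insert _ _, heI, ?_⟩
        rw [pInd_insert hF heI]
        exact ⟨a, hg, haI, ha⟩
      · refine ⟨a, Or.inr haJ, haI, ?_⟩
        rw [pInd_of_notMem]
        · exact ha
        · rintro (h | h)
          · exact heJ' (h ▸ haJ)
          · exact heI h
    · rw [pInd_of_notMem heJ] at hJ
      obtain ⟨a, haJ, haI, ha⟩ := aug' hI hJ hIJ
      refine ⟨a, haJ, haI, ?_⟩
      rw [pInd_of_notMem]
      · exact ha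
      · rintro (h | h)
        · exact heJ (h ▸ haJ)
        · exact heI h

/-- The principal extension of `M` by `e` on `F`. -/
def prinExt (M : Matroid α) [M.Finite] (F : Set α) (e : α) (hF : e ∉ F) : Matroid α :=
  (IndepMatroid.ofFinite (E := insert e M.E) (M.ground_finite.insert e) (PInd M F e)
    (by
      rw [pInd_of_notMem (notMem_empty e)]
      exact M.empty_indep)
    (fun _ _ hJ hIJ => pInd_subset hF hJ hIJ)
    (fun _ _ hI hJ h => pInd_aug hF hI hJ h)
    (by
      intro I hI
      by_cases he : e ∈ I
      · obtain ⟨J, heJ, rfl⟩ := exists_eq_insert he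
        rw [pInd_insert hF heJ] at hI
        obtain ⟨f, -, -, h⟩ := hI
        exact insert_subset_insert ((subset_insert _ _).trans h.subset_ground)
      · rw [pInd_of_notMem he] at hI
        exact hI.subset_ground.trans (subset_insert _ _))).matroid

section

variable (M : Matroid α) [M.Finite] (F : Set α) (e : α) (hF : e ∉ F)

theorem prinExt_ground : (prinExt M F e hF).E = insert e M.E := rfl

theorem prinExt_indep (I : Set α) : (prinExt M F e hF).Indep I ↔ PInd M F e I := by
  unfold prinExt
  rw [IndepMatroid.matroid_indep_iff]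
  rfl

theorem prinExt_finite : (prinExt M F e hF).Finite := ⟨M.ground_finite.insert e⟩

/-- The rank function of the principal extension. -/
theorem rk_prinExt_of_notMem {A : Set α} (he : e ∉ A) :
    haveI := prinExt_finite M F e hF
    rk (prinExt M F e hF) A = rk M A := by
  haveI := prinExt_finite M F e hF
  refine rk_eq_of_eRk ?_
  have : prinExt M F e hF ↾ A = M ↾ A := by
    refine ext_indep rfl ?_
    intro I hI
    rw [restrict_indep_iff, restrict_indep_iff, prinExt_indep, pInd_of_notMem]
    exact fun h => he (hI h)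
  rw [← eRank_restrict, this, eRank_restrict]

theorem rk_prinExt_insert {A : Set α} (he : e ∉ A) :
    rk (prinExt M F e hF) (insert e A) =
      rk M A + (if rk M (A ∪ F) = rk M A then 0 else 1) := by
  haveI := prinExt_finite M F e hF
  obtain ⟨I, hI⟩ := M.exists_isBasis' A
  have heI : e ∉ I := fun h => he (hI.subset h)
  have hI' : (prinExt M F e hF).IsBasis' I A := by
    constructor
    · refine ⟨?_, hI.subset⟩
      show (prinExt M F e hF).Indep I
      rw [prinExt_indep, pInd_of_notMem heI]
      exact hI.indep
    · intro J hJ hIJ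
      have hJ1 : (prinExt M F e hF).Indep J := hJ.1
      have hJ2 : J ⊆ A := hJ.2
      rw [prinExt_indep, pInd_of_notMem (fun h => he (hJ2 h))] at hJ1
      exact hI.2 ⟨hJ1, hJ2⟩ hIJ
  have h1 : rk (prinExt M F e hF) (insert e A) = rk (prinExt M F e hF) (insert e I) :=
    rk_eq_of_eRk (hI'.eRk_eq_eRk_insert e).symm
  rw [h1, rk_basis hI]
  have finI := hI.indep.finite
  have h0 := rankFn_rk (prinExt M F e hF)
  have h0' := rankFn_rk M
  have h2 : rk (prinExt M F e hF) I = I.ncard := by
    rw [rk_prinExt_of_notMem M F e hF heI, rk_of_indep hI.indep]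
  have h3 := h0.ins e I
  have h4 := h0.mono I (insert e I) (subset_insert _ _)
  have h5 : rk M (A ∪ F) = rk M (F ∪ I) := rk_union_basis hI F
  by_cases hex : ∃ f ∈ F, f ∉ I ∧ M.Indep (insert f I)
  · have h6 : (prinExt M F e hF).Indep (insert e I) := by
      rw [prinExt_indep, pInd_insert hF heI]
      exact hex
    have h7 := rk_of_indep h6
    rw [ncard_insert_of_notMem heI finI] at h7
    obtain ⟨f, hf, hfI, h⟩ := hex
    have h8 := rk_of_indep h
    rw [ncard_insert_of_notMem hfI finI] at h8
    have h9 := h0'.mono (insert f I) (F ∪ I) (by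
      rintro a (rfl | ha)
      · exact Or.inl hf
      · exact Or.inr ha)
    rw [if_neg (by omega), h7]
  · have h6 : ¬ (prinExt M F e hF).Indep (insert e I) := by
      rw [prinExt_indep, pInd_insert hF heI]
      exact hex
    have h7 : rk (prinExt M F e hF) (insert e I) ≠ I.ncard + 1 := by
      intro h
      refine h6 (indep_of_rk (finI.insert e) ?_)
      rw [ncard_insert_of_notMem heI finI]
      exact h
    have h8 : rk M (A ∪ F) = I.ncard := by
      by_contra hne
      have h9 := h0'.mono I (I ∪ F) subset_union_left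
      rw [rk_of_indep hI.indep] at h9
      rw [h5, union_comm] at hne
      obtain ⟨f, hf, hf1⟩ := rk_exists M I F (by
        rw [rk_of_indep hI.indep]
        omega)
      rw [rk_of_indep hI.indep] at hf1
      have hfI : f ∉ I := by
        intro h
        rw [insert_eq_of_mem h, rk_of_indep hI.indep] at hf1
        omega
      refine hex ⟨f, hf, hfI, indep_of_rk (finI.insert f) ?_⟩
      rw [ncard_insert_of_notMem hfI finI]
      exact hf1
    rw [if_pos h8]
    omega

/-- A principal extension of a matroid without minors isomorphic to `M(K₄)` has no such minors. -/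
theorem hasK4_prinExt (h : HasK4 (prinExt M F e hF)) : HasK4 M := by
  haveI := prinExt_finite M F e hF
  obtain ⟨C, x, hx⟩ := h
  exact config_ext (rankFn_rk M) (rk_exists M)
    (fun A hA => rk_prinExt_of_notMem M F e hF hA)
    (fun A hA => rk_prinExt_insert M F e hF hA) hx

end

end Pool.Agent.Helper53K9.MK
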