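import Mathlib

/-!
# Configurations of type `M(K₄)` and rank functions
-/

set_option autoImplicit false

open Set

namespace Pool.Agent.Helper53K9.MK

/-- The lines with three points of `M(K₄)`, on the points `0, …, 5`. -/
def line : Fin 4 → Finset (Fin 6) := ![{0, 1, 2}, {0, 3, 4}, {1, 3, 5}, {2, 4, 5}]

/-- The rank function of `M(K₄)` on the points `0, …, 5`. -/
def k4 (S : Finset (Fin 6)) : ℕ :=
  if S = {0, 1, 2} ∨ S = {0, 3, 4} ∨ S = {1, 3, 5} ∨ S = {2, 4, 5} then 2 else min S.card 3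

/-- The properties of a rank function that are used. -/
structure RankFn {α : Type*} (r : Set α → ℕ) : Prop where
  mono : ∀ A B : Set α, A ⊆ B → r A ≤ r B
  sub : ∀ A B : Set α, r (A ∪ B) + r (A ∩ B) ≤ r A + r B
  ins : ∀ (a : α) (A : Set α), r (insert a A) ≤ r A + 1

/-- The points `x i` form a matroid `M(K₄)` after the contraction of `C`. -/
def Config {α : Type*} (r : Set α → ℕ) (C : Set α) (x : Fin 6 → α) : Prop :=
  ∀ S : Finset (Fin 6), r (C ∪ x '' S) = r C + k4 S

/-- `T` is a set of three points which is not a line. -/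
def NL (T : Finset (Fin 6)) : Prop :=
  T.card = 3 ∧ T ≠ {0, 1, 2} ∧ T ≠ {0, 3, 4} ∧ T ≠ {1, 3, 5} ∧ T ≠ {2, 4, 5}

instance : DecidablePred NL := fun T => by unfold NL; infer_instance

section

variable {α : Type*} {r : Set α → ℕ}

theorem RankFn.sub' (h : RankFn r) {A B U V : Set α} (hU : U ⊆ A ∪ B) (hV : V ⊆ A ∩ B) :
    r U + r V ≤ r A + r B :=
  (Nat.add_le_add (h.mono _ _ hU) (h.mono _ _ hV)).trans (h.sub A B)

/-- submodularity for the sets `C ∪ x '' S` -/
theorem RankFn.fin (h : RankFn r) (C : Set α) (x : Fin 6 → α) (S T U V : Finset (Fin 6))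
    (hU : U ⊆ S ∪ T) (hV : V ⊆ S ∩ T) :
    r (C ∪ x '' U) + r (C ∪ x '' V) ≤ r (C ∪ x '' S) + r (C ∪ x '' T) := by
  refine h.sub' ?_ ?_
  · have : x '' (U : Set (Fin 6)) ⊆ x '' S ∪ x '' T := by
      rw [← image_union]
      refine image_mono ?_
      rw [← Finset.coe_union]
      exact_mod_cast hU
    intro a ha
    rcases ha with ha | ha
    · exact Or.inl (Or.inl ha)
    · rcases this ha with h1 | h1
      · exact Or.inl (Or.inr h1)
      · exact Or.inr (Or.inr h1)
  · have : x '' (V : Set (Fin 6)) ⊆ x '' S ∩ x '' T := by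
      refine subset_inter (image_mono ?_) (image_mono ?_)
      · exact_mod_cast (Finset.subset_inter_iff.1 hV).1
      · exact_mod_cast (Finset.subset_inter_iff.1 hV).2
    intro a ha
    rcases ha with ha | ha
    · exact ⟨Or.inl ha, Or.inl ha⟩
    · exact ⟨Or.inr (this ha).1, Or.inr (this ha).2⟩

theorem RankFn.fin_mono (h : RankFn r) (C : Set α) (x : Fin 6 → α) {S T : Finset (Fin 6)}
    (hST : S ⊆ T) : r (C ∪ x '' S) ≤ r (C ∪ x '' T) :=
  h.mono _ _ (union_subset_union_right _ (image_mono (by exact_mod_cast hST)))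

theorem RankFn.fin_insert (h : RankFn r) (C : Set α) (x : Fin 6 → α) (S : Finset (Fin 6))
    (i : Fin 6) : r (C ∪ x '' (insert i S : Finset (Fin 6))) ≤ r (C ∪ x '' S) + 1 := by
  have e : C ∪ x '' ((insert i S : Finset (Fin 6)) : Set (Fin 6)) = insert (x i) (C ∪ x '' S) := by
    rw [Finset.coe_insert, image_insert_eq, union_insert]
  rw [e]
  exact h.ins _ _

theorem RankFn.fin_card (h : RankFn r) (C : Set α) (x : Fin 6 → α) (S T : Finset (Fin 6)) :
    r (C ∪ x '' (S ∪ T : Finset (Fin 6))) ≤ r (C ∪ x '' S) + T.card := by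
  classical
  induction T using Finset.induction_on with
  | empty => simp
  | insert i T hi ih =>
    rw [Finset.union_insert, Finset.card_insert_of_notMem hi]
    exact (h.fin_insert C x _ i).trans (by omega)

theorem RankFn.fin_empty (r : Set α → ℕ) (C : Set α) (x : Fin 6 → α) :
    r (C ∪ x '' ((∅ : Finset (Fin 6)) : Set (Fin 6))) = r C := by
  simp

theorem nl_aux1 : ∀ S : Finset (Fin 6), S.card ≤ 2 → ∃ T, NL T ∧ S ⊆ T := by decide +kernel

theorem nl_aux2 : ∀ S : Finset (Fin 6), 3 ≤ S.card → (∃ T, NL T ∧ T ⊆ S) ∨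
    (S = {0, 1, 2} ∨ S = {0, 3, 4} ∨ S = {1, 3, 5} ∨ S = {2, 4, 5}) := by decide +kernel

/-- A criterion for configurations. -/
theorem config_of (h : RankFn r) {C : Set α} {x : Fin 6 → α}
    (h1 : r (C ∪ x '' (({0, 1, 2} : Finset (Fin 6)) : Set (Fin 6))) ≤ r C + 2)
    (h2 : r (C ∪ x '' (({0, 3, 4} : Finset (Fin 6)) : Set (Fin 6))) ≤ r C + 2)
    (h3 : r (C ∪ x '' (({1, 3, 5} : Finset (Fin 6)) : Set (Fin 6))) ≤ r C + 2)
    (h4 : r (C ∪ x '' (({2, 4, 5} : Finset (Fin 6)) : Set (Fin 6))) ≤ r C + 2)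
    (hT : ∀ T : Finset (Fin 6), NL T → r C + 3 ≤ r (C ∪ x '' T)) : Config r C x := by
  have hup : ∀ S : Finset (Fin 6), r (C ∪ x '' S) ≤ r C + S.card := by
    intro S
    have := h.fin_card C x ∅ S
    rw [Finset.empty_union, RankFn.fin_empty r] at this
    exact this
  have hsmall : ∀ S : Finset (Fin 6), S.card ≤ 2 → r C + S.card ≤ r (C ∪ x '' S) := by
    intro S hS
    obtain ⟨T, hT1, hT2⟩ := nl_aux1 S hS
    have e1 := hT T hT1
    have e2 := h.fin_card C x S (T \ S)
    rw [Finset.union_sdiff_of_subset hT2] at e2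
    have e3 : (T \ S).card + S.card = T.card := Finset.card_sdiff_add_card_eq_card hT2
    have e4 := hT1.1
    omega
  have hall : ∀ S : Finset (Fin 6), r (C ∪ x '' S) ≤ r C + 3 := by
    intro S
    have e1 := h.fin C x {0, 1, 2} {0, 3, 4} {0, 1, 2, 3, 4} {0} (by decide) (by decide)
    have e2 := h.fin C x {0, 1, 2, 3, 4} {1, 3, 5} Finset.univ {1, 3} (by decide) (by decide)
    have e3 := hsmall {0} (by decide)
    have e4 := hsmall {1, 3} (by decide)
    have e5 := h.fin_mono C x (Finset.subset_univ S)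
    have e6 : ({0} : Finset (Fin 6)).card = 1 := rfl
    have e7 : ({1, 3} : Finset (Fin 6)).card = 2 := rfl
    omega
  intro S
  by_cases hS : S.card ≤ 2
  · have e1 : k4 S = S.card := by
      unfold k4
      rw [if_neg, min_eq_left (by omega)]
      rintro (h | h | h | h) <;> rw [h] at hS <;> exact absurd hS (by decide)
    rw [e1]
    exact le_antisymm (hup S) (hsmall S hS)
  · rcases nl_aux2 S (by omega) with ⟨T, hT1, hT2⟩ | hl
    · have e1 : k4 S = 3 := by
        unfold k4
        rw [if_neg, min_eq_right (by omega)]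
        intro hl
        have e2 : T = S := by
          refine Finset.eq_of_subset_of_card_le hT2 ?_
          rw [hT1.1]
          rcases hl with h | h | h | h <;> rw [h] <;> decide
        subst e2
        obtain ⟨-, n1, n2, n3, n4⟩ := hT1
        rcases hl with h | h | h | h
        · exact n1 h
        · exact n2 h
        · exact n3 h
        · exact n4 h
      rw [e1]
      exact le_antisymm (hall S) ((hT T hT1).trans (h.fin_mono C x hT2))
    · have e1 : k4 S = 2 := if_pos hl
      rw [e1]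
      rcases hl with rfl | rfl | rfl | rfl
      · exact le_antisymm h1 ((hsmall {0, 1} (by decide)).trans (h.fin_mono C x (by decide)))
      · exact le_antisymm h2 ((hsmall {0, 3} (by decide)).trans (h.fin_mono C x (by decide)))
      · exact le_antisymm h3 ((hsmall {1, 3} (by decide)).trans (h.fin_mono C x (by decide)))
      · exact le_antisymm h4 ((hsmall {2, 4} (by decide)).trans (h.fin_mono C x (by decide)))

theorem nl_aux3 : ∀ T : Finset (Fin 6), NL T → 0 ∈ T →
    T = {0, 1, 3} ∨ T = {0, 1, 4} ∨ T = {0, 1, 5} ∨ T = {0, 2, 3} ∨ T = {0, 2, 4} ∨ T = {0, 2, 5} ∨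
    T = {0, 3, 5} ∨ T = {0, 4, 5} := by decide +kernel

/-- The point `0` has only to be in the intersection of its two lines. -/
theorem config_of_zero (h : RankFn r) {C : Set α} {x : Fin 6 → α}
    (h0 : r C + 1 ≤ r (C ∪ x '' (({0} : Finset (Fin 6)) : Set (Fin 6))))
    (h1 : r (C ∪ x '' (({0, 1, 2} : Finset (Fin 6)) : Set (Fin 6))) ≤ r C + 2)
    (h2 : r (C ∪ x '' (({0, 3, 4} : Finset (Fin 6)) : Set (Fin 6))) ≤ r C + 2)
    (h3 : r (C ∪ x '' (({1, 3, 5} : Finset (Fin 6)) : Set (Fin 6))) ≤ r C + 2)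
    (h4 : r (C ∪ x '' (({2, 4, 5} : Finset (Fin 6)) : Set (Fin 6))) ≤ r C + 2)
    (hT : ∀ T : Finset (Fin 6), NL T → 0 ∉ T → r C + 3 ≤ r (C ∪ x '' T)) : Config r C x := by
  have t123 := hT {1, 2, 3} (by decide) (by decide)
  have t124 := hT {1, 2, 4} (by decide) (by decide)
  have t125 := hT {1, 2, 5} (by decide) (by decide)
  have t134 := hT {1, 3, 4} (by decide) (by decide)
  have t234 := hT {2, 3, 4} (by decide) (by decide)
  have t345 := hT {3, 4, 5} (by decide) (by decide)
  -- pairs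
  have p1 : r C + 2 ≤ r (C ∪ x '' (({0, 1} : Finset (Fin 6)) : Set (Fin 6))) := by
    have := h.fin C x {0, 1} {0, 3, 4} {1, 3, 4} {0} (by decide) (by decide)
    omega
  have p2 : r C + 2 ≤ r (C ∪ x '' (({0, 2} : Finset (Fin 6)) : Set (Fin 6))) := by
    have := h.fin C x {0, 2} {0, 3, 4} {2, 3, 4} {0} (by decide) (by decide)
    omega
  have p3 : r C + 2 ≤ r (C ∪ x '' (({0, 3} : Finset (Fin 6)) : Set (Fin 6))) := by
    have := h.fin C x {0, 3} {0, 1, 2} {1, 2, 3} {0} (by decide) (by decide)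
    omega
  have p4 : r C + 2 ≤ r (C ∪ x '' (({0, 4} : Finset (Fin 6)) : Set (Fin 6))) := by
    have := h.fin C x {0, 4} {0, 1, 2} {1, 2, 4} {0} (by decide) (by decide)
    omega
  refine config_of h h1 h2 h3 h4 ?_
  intro T hNL
  by_cases hz : 0 ∈ T
  · rcases nl_aux3 T hNL hz with rfl | rfl | rfl | rfl | rfl | rfl | rfl | rfl
    · have := h.fin C x {0, 1, 3} {0, 1, 2} {1, 2, 3} {0, 1} (by decide) (by decide)
      omega
    · have := h.fin C x {0, 1, 4} {0, 1, 2} {1, 2, 4} {0, 1} (by decide) (by decide)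
      omega
    · have := h.fin C x {0, 1, 5} {0, 1, 2} {1, 2, 5} {0, 1} (by decide) (by decide)
      omega
    · have := h.fin C x {0, 2, 3} {0, 1, 2} {1, 2, 3} {0, 2} (by decide) (by decide)
      omega
    · have := h.fin C x {0, 2, 4} {0, 1, 2} {1, 2, 4} {0, 2} (by decide) (by decide)
      omega
    · have := h.fin C x {0, 2, 5} {0, 1, 2} {1, 2, 5} {0, 2} (by decide) (by decide)
      omega
    · have := h.fin C x {0, 3, 5} {0, 3, 4} {3, 4, 5} {0, 3} (by decide) (by decide)
      omega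
    · have := h.fin C x {0, 4, 5} {0, 3, 4} {3, 4, 5} {0, 4} (by decide) (by decide)
      omega
  · exact hT T hNL hz

/-- A permutation of the points that is an automorphism of `M(K₄)` and moves `0` to `p`. -/
def perm : Fin 6 → Fin 6 → Fin 6 :=
  ![![0, 1, 2, 3, 4, 5], ![1, 0, 2, 3, 5, 4], ![2, 1, 0, 5, 4, 3], ![3, 0, 4, 1, 5, 2],
    ![4, 0, 3, 2, 5, 1], ![5, 1, 3, 2, 4, 0]]

theorem perm_zero : ∀ p, perm p 0 = p := by decide

theorem k4_perm : ∀ (p : Fin 6) (S : Finset (Fin 6)), k4 (S.image (perm p)) = k4 S := by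
  decide +kernel

theorem Config.perm {C : Set α} {x : Fin 6 → α} (h : Config r C x) (p : Fin 6) :
    Config r C (x ∘ perm p) := by
  intro S
  have := h (S.image (MK.perm p))
  rw [k4_perm, Finset.coe_image, ← image_comp] at this
  exact this

end

end Pool.Agent.Helper53K9.MK
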